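import Pool.Agent.KTP.St

/-!
# KTP [Wrd]: the first fundamental theorem for the product of the orthogonal groups
-/

set_option autoImplicit false
set_option linter.unusedSectionVars false

namespace Pool.Agent.KTP

open Module Matrix NumberField Pool.Agent.Helper7 Pool.Agent.KS Pool.Agent.Ball Pool.Agent.KSE
  Pool.Agent.K3P
open Pool.Agent.GPC (AbVar TC IsRatT qf df HX HU IsGrU IsBasicU IsGenU)

/-- products of elements of spans are in the span of the products -/
theorem Wrd_exp {I : Type} [Fintype I] [DecidableEq I] {X : I → Type}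
    (B : ∀ i, Set (X i → ℂ)) (u : ∀ i, X i → ℂ) (hu : ∀ i, u i ∈ Submodule.span ℂ (B i)) :
    (fun y : (∀ i, X i) => ∏ i, u i (y i)) ∈
      Submodule.span ℂ {g : (∀ i, X i) → ℂ | ∃ ω : ∀ i, X i → ℂ, (∀ i, ω i ∈ B i) ∧
        g = fun y => ∏ i, ω i (y i)} := by
  have h1 : ∀ i, ∃ (n : ℕ) (c : Fin n → ℂ) (g : Fin n → (B i)),
      ∑ k, c k • (g k : X i → ℂ) = u i := fun i => Submodule.mem_span_set'.mp (hu i)
  choose n c g hg using h1
  have h2 : (fun y : (∀ i, X i) => ∏ i, u i (y i)) =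
      ∑ κ : (∀ i, Fin (n i)), (∏ i, c i (κ i)) • fun y : (∀ i, X i) =>
        ∏ i, (g i (κ i) : X i → ℂ) (y i) := by
    funext y
    rw [Finset.sum_apply]
    have e1 : ∀ i, u i (y i) = ∑ k, c i k * (g i k : X i → ℂ) (y i) := by
      intro i
      rw [← hg i, Finset.sum_apply]
      rfl
    rw [Finset.prod_congr rfl fun i _ => e1 i, Finset.prod_univ_sum]
    rw [Fintype.piFinset_univ]
    refine Finset.sum_congr rfl fun κ _ => ?_
    rw [Finset.prod_mul_distrib]
    rfl
  rw [h2]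
  refine Submodule.sum_mem _ fun κ _ => Submodule.smul_mem _ _ (Submodule.subset_span ?_)
  exact ⟨fun i => (g i (κ i) : X i → ℂ), fun i => (g i (κ i)).2, rfl⟩

section

variable {I : Type} [Fintype I] [DecidableEq I] {K : I → Type} [∀ i, Field (K i)]
  [∀ i, NumberField (K i)] {m : I → ℕ} {d : ℕ} {D : I → ℕ}

/-- the family of vectors of a word -/
def Wrd_Y (W : (Σ i, Fin (D i)) ≃ Fin d) (y : ∀ i, Fin (D i) → TC (K i) (m i)) :
    Fin d → TF K m :=
  fun r => Pi.single (W.symm r).1 (y (W.symm r).1 (W.symm r).2)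

theorem Wrd_Y_apply (W : (Σ i, Fin (D i)) ≃ Fin d) (y : ∀ i, Fin (D i) → TC (K i) (m i)) (i : I)
    (k : Fin (D i)) : Wrd_Y W y (W ⟨i, k⟩) = Pi.single i (y i k) := by
  unfold Wrd_Y
  rw [Equiv.symm_apply_apply]

theorem Wrd_Y_update (W : (Σ i, Fin (D i)) ≃ Fin d) (y : ∀ i, Fin (D i) → TC (K i) (m i)) (i : I)
    [DecidableEq (Fin (D i))] (x : Fin (D i) → TC (K i) (m i)) (k : Fin (D i))
    (u : TC (K i) (m i)) :
    Wrd_Y W (Function.update y i (Function.update x k u)) =
      Function.update (Wrd_Y W (Function.update y i x)) (W ⟨i, k⟩) (Pi.single i u) := by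
  funext r
  obtain ⟨⟨j, l⟩, rfl⟩ := W.surjective r
  by_cases hj : j = i
  · subst hj
    by_cases hl : l = k
    · subst hl
      rw [Function.update_self, Wrd_Y_apply, Function.update_self, Function.update_self]
    · rw [Function.update_of_ne, Wrd_Y_apply, Wrd_Y_apply, Function.update_self,
        Function.update_self, Function.update_of_ne hl]
      intro h
      have h1 := W.injective h
      simp only [Sigma.mk.injEq, heq_eq_eq, true_and] at h1
      exact hl h1
  · rw [Function.update_of_ne, Wrd_Y_apply, Wrd_Y_apply, Function.update_of_ne hj,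
      Function.update_of_ne hj]
    intro h
    exact hj (congrArg Sigma.fst (W.injective h))

/-- the form in the slots of one index -/
def Wrd_G (W : (Σ i, Fin (D i)) ≃ Fin d) (F : MultilinearMap ℂ (fun _ : Fin d => TF K m) ℂ)
    (y : ∀ i, Fin (D i) → TC (K i) (m i)) (i : I) :
    MultilinearMap ℂ (fun _ : Fin (D i) => TC (K i) (m i)) ℂ where
  toFun x := F (Wrd_Y W (Function.update y i x))
  map_update_add' x k u u' := by
    rw [Wrd_Y_update, Wrd_Y_update, Wrd_Y_update, Pi.single_add, F.map_update_add]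
  map_update_smul' x k a u := by
    rw [Wrd_Y_update, Wrd_Y_update, Pi.single_smul, F.map_update_smul]

theorem Wrd_G_apply (W : (Σ i, Fin (D i)) ≃ Fin d)
    (F : MultilinearMap ℂ (fun _ : Fin d => TF K m) ℂ)
    (y : ∀ i, Fin (D i) → TC (K i) (m i)) (i : I) (x : Fin (D i) → TC (K i) (m i)) :
    Wrd_G W F y i x = F (Wrd_Y W (Function.update y i x)) := rfl

theorem Wrd_inv (W : (Σ i, Fin (D i)) ≃ Fin d)
    {h : ∀ i, Matrix (Fin (m i)) (Fin (m i)) (K i)}
    (F : MultilinearMap ℂ (fun _ : Fin d => TF K m) ℂ) (hF : InvF h F)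
    (y : ∀ i, Fin (D i) → TC (K i) (m i)) (i : I)
    (M : (K i →+* ℂ) → Matrix (Fin (m i)) (Fin (m i)) ℂ) (hM : SkewM (h i) M)
    (x : Fin (D i) → TC (K i) (m i)) :
    ∑ k, Wrd_G W F y i (Function.update x k fun σ => M σ *ᵥ x k σ) = 0 := by
  have h1 := hF i M hM (Wrd_Y W (Function.update y i x))
  rw [← Equiv.sum_comp W, Fintype.sum_sigma, Finset.sum_eq_single i] at h1
  · rw [← h1]
    refine Finset.sum_congr rfl fun k _ => ?_
    rw [Wrd_G_apply, Wrd_Y_update]
    congr 2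
    rw [Wrd_Y_apply, Function.update_self]
    congr 1
    funext σ
    rw [Pi.single_eq_same]
  · intro j _ hj
    refine Finset.sum_eq_zero fun l _ => ?_
    have e1 : (fun σ => M σ *ᵥ Wrd_Y W (Function.update y i x) (W ⟨j, l⟩) i σ) =
        (0 : TC (K i) (m i)) := by
      funext σ
      rw [Wrd_Y_apply, Pi.single_eq_of_ne (Ne.symm hj)]
      show M σ *ᵥ 0 = 0
      rw [mulVec_zero]
    rw [e1, Pi.single_zero]
    exact F.map_update_zero _ _
  · intro h0; exact absurd (Finset.mem_univ _) h0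

end

theorem thm_Wrd (hPrd : St_Prd) (hOne : St_One) (hFin : St_Fin) (hCom : St_Com) : St_Wrd := by
  intro I _ _ K _ _ c m h d hconj hherm hnd F hF
  have hsum : (fun v => F v) = ∑ w : Fin d → I, fun v : Fin d → TF K m =>
      F (fun r => Pi.single (w r) (v r (w r))) := by
    funext v
    rw [Finset.sum_apply]
    have h1 := F.map_sum (fun r i => (Pi.single i (v r i) : TF K m))
    rw [← h1]
    congr 1
    funext r
    exact (Finset.univ_sum_single (v r)).symm
  rw [hsum]
  refine Submodule.sum_mem _ fun w _ => ?_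
  obtain ⟨D, hD⟩ : ∃ D : I → ℕ, D = fun i => Fintype.card {r // w r = i} := ⟨_, rfl⟩
  have hq : ∀ i, Nonempty (Fin (D i) ≃ {r // w r = i}) := by
    intro i
    rw [hD]
    exact ⟨(Fintype.equivFin _).symm⟩
  have q : ∀ i, Fin (D i) ≃ {r // w r = i} := fun i => Classical.choice (hq i)
  obtain ⟨W, hW⟩ : ∃ W : (Σ i, Fin (D i)) ≃ Fin d, ∀ i k, w (W ⟨i, k⟩) = i :=
    ⟨(Equiv.sigmaCongrRight q).trans (Equiv.sigmaFiberEquiv w), fun i k => (q i k).2⟩
  -- the function of the word
  have hf := hPrd I (fun i => Fin (D i) → TC (K i) (m i))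
    (fun i => Submodule.span ℂ {ω : (Fin (D i) → TC (K i) (m i)) → ℂ | Bas1 (c i) (h i) (D i) ω})
    (fun i => hFin (K i) (c i) (m i) (D i) (h i)) (fun y => F (Wrd_Y W y)) (by
      intro i y
      exact hOne (K i) (c i) (m i) (D i) (h i) (hconj i) (hherm i) (hnd i) (Wrd_G W F y i)
        (fun M hM x => Wrd_inv W F hF y i M hM x))
  have hf2 : (fun y => F (Wrd_Y W y)) ∈ Submodule.span ℂ
      {g : (∀ i, Fin (D i) → TC (K i) (m i)) → ℂ |
        ∃ ω : ∀ i, (Fin (D i) → TC (K i) (m i)) → ℂ,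
          (∀ i, ω i ∈ {ω : (Fin (D i) → TC (K i) (m i)) → ℂ | Bas1 (c i) (h i) (D i) ω}) ∧
          g = fun y => ∏ i, ω i (y i)} := by
    refine Submodule.span_le.mpr ?_ hf
    rintro g ⟨u, hu, rfl⟩
    exact Wrd_exp (fun i => {ω : (Fin (D i) → TC (K i) (m i)) → ℂ | Bas1 (c i) (h i) (D i) ω})
      u hu
  -- pull back
  let T : (Fin d → TF K m) → (∀ i, Fin (D i) → TC (K i) (m i)) := fun v i k => v (W ⟨i, k⟩) i
  have hT : (fun v : Fin d → TF K m => F (fun r => Pi.single (w r) (v r (w r)))) =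
      LinearMap.funLeft ℂ ℂ T (fun y => F (Wrd_Y W y)) := by
    funext v
    rw [LinearMap.funLeft_apply]
    congr 1
    funext r
    obtain ⟨⟨j, l⟩, rfl⟩ := W.surjective r
    rw [Wrd_Y_apply]
    show (Pi.single (w (W ⟨j, l⟩)) (v (W ⟨j, l⟩) (w (W ⟨j, l⟩))) : TF K m) =
      Pi.single j (v (W ⟨j, l⟩) j)
    have h2 : ∀ i' : I, i' = j → (Pi.single i' (v (W ⟨j, l⟩) i') : TF K m) =
        Pi.single j (v (W ⟨j, l⟩) j) := by
      rintro i' rfl
      rfl
    exact h2 _ (hW j l)
  rw [hT]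
  have h3 := Submodule.mem_map_of_mem (f := LinearMap.funLeft ℂ ℂ T) hf2
  rw [Submodule.map_span] at h3
  refine Submodule.span_mono ?_ h3
  rintro g ⟨g', ⟨ω, hω, rfl⟩, rfl⟩
  exact hCom I K c m h d D W ω hω

end Pool.Agent.KTP
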