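import Pool.Agent.KTP.St

/-!
# KTP [Prd]: functions of several variables of finite type in every variable
-/

set_option autoImplicit false

open Module

namespace Pool.Agent.KTP

/-- a finite dimensional space of functions is determined by finitely many points -/
theorem Prd_pts {X : Type} (E : Submodule ℂ (X → ℂ)) [FiniteDimensional ℂ E] :
    ∃ (k : ℕ) (p : Fin k → X) (ω : Fin k → X → ℂ), (∀ b, ω b ∈ E) ∧
      ∀ g ∈ E, ∀ x, g x = ∑ b, g (p b) * ω b x := by
  classical
  -- finitely many evaluations with trivial common kernel
  have key : ∃ (s : Finset X), ∀ g ∈ E, (∀ x ∈ s, g x = 0) → g = 0 := by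
    by_contra hcon
    push Not at hcon
    -- descending chain argument by dimension
    have h : ∀ n : ℕ, ∃ s : Finset X,
        finrank ℂ (LinearMap.ker ((LinearMap.pi fun x : s => LinearMap.proj (R := ℂ)
          (φ := fun _ : X => ℂ) x.1).comp E.subtype)) + n ≤ finrank ℂ E := by
      intro n
      induction n with
      | zero => exact ⟨∅, by simpa using Submodule.finrank_le _⟩
      | succ n ih =>
        obtain ⟨s, hs⟩ := ih
        obtain ⟨g, hg, hg0, hgne⟩ := hcon s
        obtain ⟨x, hx⟩ : ∃ x, g x ≠ 0 := by
          by_contra h0
          push Not at h0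
          exact hgne (funext h0)
        refine ⟨insert x s, ?_⟩
        have hlt : finrank ℂ (LinearMap.ker ((LinearMap.pi fun y : (insert x s : Finset X) =>
            LinearMap.proj (R := ℂ) (φ := fun _ : X => ℂ) y.1).comp E.subtype)) <
            finrank ℂ (LinearMap.ker ((LinearMap.pi fun y : s => LinearMap.proj (R := ℂ)
              (φ := fun _ : X => ℂ) y.1).comp E.subtype)) := by
          apply Submodule.finrank_lt_finrank_of_lt
          refine lt_of_le_of_ne ?_ ?_
          · intro u hu
            rw [LinearMap.mem_ker] at hu ⊢
            funext y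
            exact congrFun hu ⟨y.1, Finset.mem_insert_of_mem y.2⟩
          · intro heq
            have h1 : (⟨g, hg⟩ : E) ∈ LinearMap.ker ((LinearMap.pi fun y : s =>
                LinearMap.proj (R := ℂ) (φ := fun _ : X => ℂ) y.1).comp E.subtype) := by
              rw [LinearMap.mem_ker]
              funext y
              exact hg0 y.1 y.2
            rw [← heq, LinearMap.mem_ker] at h1
            exact hx (congrFun h1 ⟨x, Finset.mem_insert_self x s⟩)
        omega
    obtain ⟨s, hs⟩ := h (finrank ℂ E + 1)
    omega
  obtain ⟨s, hs⟩ := key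
  let e := s.equivFin
  let ev : E →ₗ[ℂ] (Fin s.card → ℂ) :=
    (LinearMap.pi fun b => LinearMap.proj (R := ℂ) (φ := fun _ : X => ℂ) (e.symm b).1).comp
      E.subtype
  have hinj : LinearMap.ker ev = ⊥ := by
    rw [LinearMap.ker_eq_bot']
    intro g hg
    apply Subtype.ext
    apply hs g.1 g.2
    intro x hx
    have h1 := congrFun hg (e ⟨x, hx⟩)
    have h2 : ev g (e ⟨x, hx⟩) = g.1 (e.symm (e ⟨x, hx⟩)).1 := rfl
    rw [h2, Equiv.symm_apply_apply] at h1
    exact h1
  obtain ⟨L, hL⟩ := LinearMap.exists_leftInverse_of_injective ev hinj
  refine ⟨s.card, fun b => (e.symm b).1, fun b => (L (Pi.single b 1)).1, fun b => (L _).2, ?_⟩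
  intro g hg x
  have h1 : L (ev ⟨g, hg⟩) = ⟨g, hg⟩ := LinearMap.congr_fun hL ⟨g, hg⟩
  have h2 : ev ⟨g, hg⟩ = ∑ b, g (e.symm b).1 • (Pi.single b 1 : Fin s.card → ℂ) := by
    funext b
    rw [Finset.sum_apply, Finset.sum_eq_single b]
    · rw [Pi.smul_apply, Pi.single_eq_same, smul_eq_mul, mul_one]
      rfl
    · intro b' _ hb'
      rw [Pi.smul_apply, Pi.single_eq_of_ne (Ne.symm hb'), smul_zero]
    · intro h; exact absurd (Finset.mem_univ _) h
  rw [h2, map_sum] at h1
  have h3 := congrArg (fun u : E => u.1 x) h1
  simp only [map_smul, Submodule.coe_sum, Submodule.coe_smul, Finset.sum_apply, Pi.smul_apply,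
    smul_eq_mul] at h3
  exact h3.symm

theorem Prd_main (I : Type) [Fintype I] [DecidableEq I] (X : I → Type)
    (E : ∀ i, Submodule ℂ (X i → ℂ)) (hE : ∀ i, FiniteDimensional ℂ (E i))
    (f : (∀ i, X i) → ℂ)
    (hf : ∀ (i : I) (y : ∀ i, X i), (fun x => f (Function.update y i x)) ∈ E i) :
    f ∈ Submodule.span ℂ {g : (∀ i, X i) → ℂ | ∃ u : ∀ i, X i → ℂ, (∀ i, u i ∈ E i) ∧
      g = fun y => ∏ i, u i (y i)} := by
  classical
  have key : ∀ S : Finset I, f ∈ Submodule.span ℂ {g : (∀ i, X i) → ℂ |
      ∃ (u : ∀ i, X i → ℂ) (w : (∀ i, X i) → ℂ), (∀ i, u i ∈ E i) ∧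
        (∀ i ∈ S, ∀ y x, w (Function.update y i x) = w y) ∧
        (∀ i, i ∉ S → ∀ y : ∀ i, X i, (fun x => w (Function.update y i x)) ∈ E i) ∧
        g = fun y => (∏ i ∈ S, u i (y i)) * w y} := by
    intro S
    induction S using Finset.induction_on with
    | empty =>
      apply Submodule.subset_span
      refine ⟨fun i => 0, f, fun i => (E i).zero_mem, by simp, fun i _ y => hf i y, ?_⟩
      funext y
      simp
    | insert j S hj ih =>
      refine Submodule.span_le.mpr ?_ ih
      rintro g ⟨u, w, hu, hw1, hw2, rfl⟩
      obtain ⟨k, p, ω, hω, hp⟩ := Prd_pts (E j)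
      have e1 : (fun y => (∏ i ∈ S, u i (y i)) * w y) =
          ∑ b, (fun y => (∏ i ∈ insert j S, (Function.update u j (ω b)) i (y i)) *
            w (Function.update y j (p b))) := by
        funext y
        rw [Finset.sum_apply]
        have h1 := hp _ (hw2 j hj y) (y j)
        simp only [Function.update_eq_self] at h1
        rw [h1, Finset.mul_sum]
        refine Finset.sum_congr rfl fun b _ => ?_
        rw [Finset.prod_insert hj, Function.update_self]
        have h2 : ∏ i ∈ S, (Function.update u j (ω b)) i (y i) = ∏ i ∈ S, u i (y i) := by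
          refine Finset.prod_congr rfl fun i hi => ?_
          have hij : i ≠ j := fun h => hj (by rw [← h]; exact hi)
          rw [Function.update_of_ne hij]
        rw [h2]
        ring
      rw [SetLike.mem_coe, e1]
      refine Submodule.sum_mem _ fun b _ => Submodule.subset_span ?_
      refine ⟨Function.update u j (ω b), fun y => w (Function.update y j (p b)), ?_, ?_, ?_, rfl⟩
      · intro i
        by_cases hi : i = j
        · subst hi
          rw [Function.update_self]
          exact hω b
        · rw [Function.update_of_ne hi]
          exact hu i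
      · intro i hi y x
        show w (Function.update (Function.update y i x) j (p b)) =
          w (Function.update y j (p b))
        by_cases hij : i = j
        · subst hij
          rw [Function.update_idem]
        · rw [Function.update_comm hij]
          have hiS : i ∈ S := by
            rcases Finset.mem_insert.mp hi with h | h
            · exact absurd h hij
            · exact h
          exact hw1 i hiS _ x
      · intro i hi y
        have hij : i ≠ j := fun h => hi (h ▸ Finset.mem_insert_self _ _)
        have hiS : i ∉ S := fun h => hi (Finset.mem_insert_of_mem h)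
        have h1 := hw2 i hiS (Function.update y j (p b))
        have h2 : (fun x => w (Function.update (Function.update y i x) j (p b))) =
            fun x => w (Function.update (Function.update y j (p b)) i x) := by
          funext x
          rw [Function.update_comm hij]
        rw [h2]
        exact h1
  refine Submodule.span_le.mpr ?_ (key Finset.univ)
  rintro g ⟨u, w, hu, hw, -, rfl⟩
  by_cases hne : Nonempty (∀ i, X i)
  · obtain ⟨y₀⟩ := hne
    have hconst : ∀ y, w y = w y₀ := by
      intro y
      have h : ∀ S : Finset I, w (fun i => if i ∈ S then y i else y₀ i) = w y₀ := by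
        intro S
        induction S using Finset.induction_on with
        | empty => simp
        | insert j S hj ih =>
          rw [← ih, ← hw j (Finset.mem_univ _) (fun i => if i ∈ S then y i else y₀ i) (y j)]
          congr 1
          funext i
          by_cases hi : i = j
          · subst hi
            simp
          · rw [Function.update_of_ne hi]
            simp [Finset.mem_insert, hi]
      have h1 := h Finset.univ
      simp only [Finset.mem_univ, if_true] at h1
      exact h1
    have e2 : (fun y => (∏ i, u i (y i)) * w y) = w y₀ • fun y => ∏ i, u i (y i) := by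
      funext y
      rw [Pi.smul_apply, smul_eq_mul, hconst y, mul_comm]
    rw [SetLike.mem_coe, e2]
    exact Submodule.smul_mem _ _ (Submodule.subset_span ⟨u, hu, rfl⟩)
  · have e3 : (fun y => (∏ i, u i (y i)) * w y) = (0 : (∀ i, X i) → ℂ) := by
      funext y
      exact absurd ⟨y⟩ hne
    rw [SetLike.mem_coe, e3]
    exact Submodule.zero_mem _

theorem thm_Prd : St_Prd :=
  fun I _ _ X E hE f hf => Prd_main I X E hE f hf

end Pool.Agent.KTP
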