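import Pool.Agent.KTP.StH

/-!
# KTP [Kil]: the Lie algebras of the Kuga-Satake structures kill all Grothendieck forms
-/

set_option autoImplicit false

namespace Pool.Agent.KTP

open Module Matrix NumberField Pool.Agent.Helper7 Pool.Agent.KS Pool.Agent.Ball Pool.Agent.KSE
  Pool.Agent.Helper28.GPC Pool.Agent.KSR Pool.Agent.K3P
open Pool.Agent.GPC (AbVar oddSparse_abelian oddSparse_small OddSparse)
open Pool.Agent.KSV (Ok)

/-- the forms on the factor with the index `i` -/
noncomputable def Kil_E {I : Type} [DecidableEq I] (κ : I → Type) (n : I → ℕ) (i : I) :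
    HW (fun _ : Unit => κ i) (fun _ => n i) →ₗ[ℂ] HW κ n where
  toFun w := Pi.single i (w ())
  map_add' u v := by
    rw [Pi.add_apply, Pi.single_add]
  map_smul' r u := by
    rw [Pi.smul_apply, Pi.single_smul]
    rfl

lemma Kil_E_apply {I : Type} [DecidableEq I] (κ : I → Type) (n : I → ℕ) (i : I)
    (w : HW (fun _ : Unit => κ i) (fun _ => n i)) : Kil_E κ n i w = Pi.single i (w ()) := rfl

lemma Kil_sub {I : Type} [DecidableEq I] [Subsingleton I] {κ : I → Type} {n : I → ℕ} (i : I)
    (v : HW κ n) : Pi.single i (v i) = v := by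
  funext j
  obtain rfl := Subsingleton.elim i j
  rw [Pi.single_eq_same]

lemma Kil_cm {A : AbVar} {K : Type} [Field K] [NumberField K] {c : K →+* K} {m : ℕ}
    (S : A.KugaSatakeMul K c m) (hc : c ≠ RingHom.id K) (hm : m = 1 ∨ Even m)
    (hodd : OddSparse K) (n : Unit → ℕ) (k : ℕ)
    (α : MultilinearMap ℂ (fun _ : Fin (2 * k) => HW (fun _ : Unit => Fin A.g ⊕ Fin A.g) n) ℂ)
    (hB : ∀ v : Fin (2 * k) → HW (fun _ : Unit => Fin A.g ⊕ Fin A.g) n,
      (∀ r, IsRatP n (fun _ : Unit => pData A) (v r)) →
      ∃ q : ℚ, α v = (2 * Real.pi * Complex.I) ^ k * q)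
    (hA : ∀ v : Fin (2 * k) → HW (fun _ : Unit => Fin A.g ⊕ Fin A.g) n,
      (∀ r i m j, IsAlgebraic ℚ (v r i m j)) → IsAlgebraic ℚ (α v))
    (Z : Module.End ℂ A.H1) (hZ : Z ∈ bvS (lt A S)) :
    actForm (lift n (fun _ : Unit => Z)) α = 0 := by
  have hϖ := Complex.two_pi_I_ne_zero
  obtain ⟨σ₀, x, hx, hx1, hx2⟩ := S.hodge
  have hnd := k3_nd S.conjugation S.hermitian hx
  have M := mde A S hnd
  have hx0 := k3_ne hx
  have hdef := fun σ => k3_def S.conjugation S.hermitian hx σ
  have hm0 : 0 < m := by
    rcases Nat.eq_zero_or_pos m with h0 | h0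
    · exfalso
      subst h0
      apply hx0
      rw [pr, dotProduct]
      exact Finset.sum_eq_zero fun a _ => a.elim0
    · exact h0
  have hcm : ∀ σ : K →+* ℂ, cj σ ≠ σ := by
    intro σ h1
    apply hc
    ext y
    have h2 := S.conjugation σ y
    have h3 : σ y = σ (c y) := by
      rw [← h2]
      exact (RingHom.congr_fun h1 y).symm
    exact (σ.injective h3).symm
  exact killC hϖ (pData A) (hnd_pData A) M α hB hA hcm (hm.imp id fun h => ⟨hm0, h⟩) hodd σ₀
    (k3_lor S.conjugation S.hermitian hx (hcm σ₀)) hdef Z hZ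

theorem thm_Kil : St_Kil := by
  intro I _ _ A K _ _ c m S hg hAdm hI hHom n k α hB hA i Z hZ
  by_cases hreal : ∀ i, c i = RingHom.id (K i)
  · have hm4 : (∀ i, m i ≠ 4) ∨ Subsingleton I := by
      rcases hI with h | h
      · exact Or.inr h
      · exact Or.inl fun i => (h i).2
    have h35 : ∀ i, 3 ≤ m i ∧ Ok (pData (A i)) (K i) (m i) := by
      intro i
      rcases hAdm i with ⟨-, hm, h5⟩ | ⟨hc, -⟩
      · refine ⟨hm, ?_⟩
        rcases h5 with h1 | ⟨h1, B, hB, f, hf, hf0⟩
        · exact Or.inl h1
        · exact Or.inr ⟨h1, Pool.Agent.KSV.thm_Surf Pool.Agent.KT.thm_KT B (A i) hB f hf hf0⟩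
      · exact absurd (hreal i) hc
    exact Pool.Agent.KSV.kill_avB A S hreal hg Pool.Agent.KSV.Hall5_ (fun i => (h35 i).1)
      (fun i => (h35 i).2) hm4 hHom n k α hB hA i Z hZ
  · have hS : Subsingleton I := by
      rcases hI with h | h
      · exact h
      · exact absurd (fun i => (h i).1) hreal
    have hci : c i ≠ RingHom.id (K i) := by
      intro hc
      apply hreal
      intro j
      obtain rfl := Subsingleton.elim i j
      exact hc
    obtain ⟨hm, hodd⟩ : (m i = 1 ∨ Even (m i)) ∧ OddSparse (K i) := by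
      rcases hAdm i with ⟨hc, -⟩ | ⟨-, hm, h3⟩
      · exact absurd hc hci
      · refine ⟨hm, ?_⟩
        rcases h3 with ⟨h4, h5⟩ | h | h
        · exact oddSparse_abelian (K i) h5
        · exact oddSparse_small (K i) (c i) (S i).conjugation h
        · exact h
    have h1 := Kil_cm (S i) hci hm hodd (fun _ => n i) k
      (α.compLinearMap fun _ => Kil_E (fun i => Fin (A i).g ⊕ Fin (A i).g) n i) ?_ ?_ Z hZ
    · apply MultilinearMap.ext
      intro v
      have h2 : actForm (lift (fun _ : Unit => n i) (fun _ : Unit => Z))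
        (α.compLinearMap fun _ => Kil_E (fun i => Fin (A i).g ⊕ Fin (A i).g) n i)
        (fun r _ => v r i) = 0 := by
        rw [h1]
        rfl
      rw [actForm_apply] at h2
      rw [actForm_apply, MultilinearMap.zero_apply, ← h2]
      refine Finset.sum_congr rfl fun r _ => ?_
      rw [MultilinearMap.compLinearMap_apply]
      congr 1
      funext r'
      by_cases hr : r' = r
      · subst hr
        rw [Function.update_self, Function.update_self, Kil_E_apply]
        rw [← Kil_sub i (lift n (Pi.single i Z) (v r'))]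
        congr 1
        funext l
        rw [lift_apply, Pi.single_eq_same]
        rfl
      · rw [Function.update_of_ne hr, Function.update_of_ne hr, Kil_E_apply, Kil_sub]
    · intro v hv
      rw [MultilinearMap.compLinearMap_apply]
      apply hB
      intro r j l
      obtain rfl := Subsingleton.elim i j
      rw [Kil_E_apply, Pi.single_eq_same]
      exact hv r () l
    · intro v hv
      rw [MultilinearMap.compLinearMap_apply]
      apply hA
      intro r j l s
      obtain rfl := Subsingleton.elim i j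
      rw [Kil_E_apply, Pi.single_eq_same]
      exact hv r () l s

end Pool.Agent.KTP
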