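import Pool.Agent.KTP.St

/-!
# KTP [Com]: products of basic functions of different indices
-/

set_option autoImplicit false

namespace Pool.Agent.KTP

open Module Matrix NumberField Pool.Agent.Helper7 Pool.Agent.KS Pool.Agent.Ball Pool.Agent.KSE
  Pool.Agent.K3P
open Pool.Agent.GPC (AbVar TC IsRatT qf df HX HU IsGrU IsBasicU IsGenU)

/-- collecting the slots of all indices -/
def Com_eq {I : Type} (l l₁ m : I → ℕ) :
    ((Σ i, Fin (l i)) × Fin 2) ⊕ (Σ b : (Σ i, Fin (l₁ i)), Fin (m b.1)) ≃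
      Σ i, ((Fin (l i) × Fin 2) ⊕ (Fin (l₁ i) × Fin (m i))) where
  toFun x := match x with
    | .inl (⟨i, a⟩, s) => ⟨i, .inl (a, s)⟩
    | .inr ⟨⟨i, b⟩, k⟩ => ⟨i, .inr (b, k)⟩
  invFun x := match x with
    | ⟨i, .inl (a, s)⟩ => .inl (⟨i, a⟩, s)
    | ⟨i, .inr (b, k)⟩ => .inr ⟨⟨i, b⟩, k⟩
  left_inv x := by
    rcases x with ⟨⟨i, a⟩, s⟩ | ⟨⟨i, b⟩, k⟩ <;> rfl
  right_inv x := by
    rcases x with ⟨i, ⟨a, s⟩ | ⟨b, k⟩⟩ <;> rfl

theorem thm_Com : St_Com := by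
  intro I _ _ K _ _ c m h d D W ω hω
  choose l l₁ e z z₁ hc hv using hω
  let eL := Fintype.equivFin (Σ i, Fin (l i))
  let eL₁ := Fintype.equivFin (Σ i, Fin (l₁ i))
  refine ⟨_, _, fun b => (eL.symm b).1, fun b => (eL₁.symm b).1,
    fun b => z (eL.symm b).1 (eL.symm b).2, fun b => z₁ (eL₁.symm b).1 (eL₁.symm b).2,
    ((((Equiv.prodCongr eL.symm (Equiv.refl (Fin 2))).sumCongr
      (Equiv.sigmaCongrLeft (β := fun b : (Σ i, Fin (l₁ i)) => Fin (m b.1)) eL₁.symm)).trans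
      (Com_eq l l₁ m)).trans (Equiv.sigmaCongrRight e)).trans W, ?_, ?_⟩
  · intro b
    by_contra hb
    have h1 := hc (eL₁.symm b).1 hb
    have h2 := (eL₁.symm b).2.2
    omega
  · intro v
    have e1 : ∀ i, ω i (fun k => v (W ⟨i, k⟩) i) =
        (∏ a, qz (h i) (z i a) (v (W ⟨i, e i (.inl (a, 0))⟩) i)
          (v (W ⟨i, e i (.inl (a, 1))⟩) i)) *
        ∏ b, df (z₁ i b) fun k => v (W ⟨i, e i (.inr (b, k))⟩) i := fun i => hv i _
    have e2 : (∏ i, ω i fun k => v (W ⟨i, k⟩) i) =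
        (∏ x : (Σ i, Fin (l i)), qz (h x.1) (z x.1 x.2)
          (v (W ⟨x.1, e x.1 (.inl (x.2, 0))⟩) x.1) (v (W ⟨x.1, e x.1 (.inl (x.2, 1))⟩) x.1)) *
        ∏ x : (Σ i, Fin (l₁ i)), df (z₁ x.1 x.2) fun k =>
          v (W ⟨x.1, e x.1 (.inr (x.2, k))⟩) x.1 := by
      rw [Finset.prod_congr rfl fun i _ => e1 i, Finset.prod_mul_distrib, Fintype.prod_sigma,
        Fintype.prod_sigma]
    refine e2.trans ?_
    rw [← Equiv.prod_comp eL.symm, ← Equiv.prod_comp eL₁.symm]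
    rfl

end Pool.Agent.KTP
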