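import Pool.Agent.KTP.St
import Pool.Agent.K3P.Dsd

/-!
# KTP [Dsu]: descent from complex to rational combinations
-/

set_option autoImplicit false
set_option linter.unusedSectionVars false

namespace Pool.Agent.KTP

open Module Matrix NumberField Pool.Agent.Helper7 Pool.Agent.KS Pool.Agent.Ball Pool.Agent.KSE
  Pool.Agent.K3P
open Pool.Agent.GPC (AbVar TC IsRatT qf df HX HU IsGrU IsBasicU IsGenU)

section

variable {I : Type} [Fintype I] [DecidableEq I] {K : I → Type} [∀ i, Field (K i)]
  [∀ i, NumberField (K i)] {m : I → ℕ}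

/-- the rational vectors span -/
lemma Dsu_span : Submodule.span ℂ (Set.range (embF : (∀ i, Fin (m i) → K i) → TF K m)) = ⊤ := by
  rw [eq_top_iff]
  intro x _
  rw [← Finset.univ_sum_single x]
  refine Submodule.sum_mem _ fun i _ => ?_
  have h1 : ∀ u ∈ Submodule.span ℂ (Set.range (emb : (Fin (m i) → K i) → TC (K i) (m i))),
      (Pi.single i u : TF K m) ∈
        Submodule.span ℂ (Set.range (embF : (∀ i, Fin (m i) → K i) → TF K m)) := by
    intro u hu
    induction hu using Submodule.span_induction with
    | mem u hu =>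
      obtain ⟨y, rfl⟩ := hu
      refine Submodule.subset_span ⟨Pi.single i y, ?_⟩
      funext j
      by_cases hj : j = i
      · subst hj
        rw [embF, Pi.single_eq_same, Pi.single_eq_same]
      · rw [embF, Pi.single_eq_of_ne hj, Pi.single_eq_of_ne hj]
        funext σ a
        exact map_zero σ
    | zero =>
      rw [Pi.single_zero]
      exact Submodule.zero_mem _
    | add x y _ _ hx hy =>
      rw [Pi.single_add]
      exact Submodule.add_mem _ hx hy
    | smul a x _ hx =>
      rw [Pi.single_smul]
      exact Submodule.smul_mem _ a hx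
  exact h1 (x i) (by rw [Dsc_span]; trivial)

/-- a multilinear form which vanishes on the rational vectors is zero -/
lemma Dsu_ext {d : ℕ} (G : MultilinearMap ℂ (fun _ : Fin d => TF K m) ℂ)
    (hG : ∀ y : Fin d → ∀ i, Fin (m i) → K i, G (fun r => embF (y r)) = 0) (v : Fin d → TF K m) :
    G v = 0 := by
  classical
  have key : ∀ (s : Finset (Fin d)) (v : Fin d → TF K m),
      (∀ r, r ∉ s → ∃ y : ∀ i, Fin (m i) → K i, v r = embF y) → G v = 0 := by
    intro s
    induction s using Finset.induction_on with
    | empty =>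
      intro v hv
      choose y hy using fun r => hv r (Finset.notMem_empty r)
      rw [funext hy]
      exact hG y
    | insert r s hr ih =>
      intro v hv
      have h1 : ∀ x ∈ Submodule.span ℂ (Set.range (embF : (∀ i, Fin (m i) → K i) → TF K m)),
          G (Function.update v r x) = 0 := by
        intro x hx
        induction hx using Submodule.span_induction with
        | mem x hx =>
          obtain ⟨y, rfl⟩ := hx
          refine ih _ fun r' hr' => ?_
          by_cases h : r' = r
          · subst h
            exact ⟨y, Function.update_self _ _ _⟩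
          · rw [Function.update_of_ne h]
            exact hv r' (by simp [h, hr'])
        | zero => exact G.map_update_zero v r
        | add x y _ _ hx hy => rw [G.map_update_add, hx, hy, add_zero]
        | smul a x _ hx => rw [G.map_update_smul, hx, smul_zero]
      have h2 := h1 (v r) (by rw [Dsu_span]; trivial)
      rwa [Function.update_eq_self] at h2
  exact key Finset.univ v fun r hr => absurd (Finset.mem_univ r) hr

end

theorem thm_Dsu (hMlt : St_Mlt) : St_Dsu := by
  classical
  intro I _ _ K _ _ c m h d hc F hF hrat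
  rw [Submodule.mem_span_set'] at hF
  obtain ⟨N, cf, ω, hω⟩ := hF
  obtain ⟨φ, hφ⟩ := LinearMap.exists_leftInverse_of_injective (Algebra.linearMap ℚ ℂ)
    (LinearMap.ker_eq_bot.2 (algebraMap ℚ ℂ).injective)
  have hφ' : ∀ q : ℚ, φ (q : ℂ) = q := by
    intro q
    have := congrArg (fun f => f q) hφ
    simpa using this
  have hφ2 : ∀ (a : ℂ) (q : ℚ), φ (a * q) = φ a * q := by
    intro a q
    have : a * (q : ℂ) = q • a := by
      rw [Algebra.smul_def, mul_comm]
      rfl
    rw [this, map_smul, smul_eq_mul, mul_comm]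
  have hM : ∀ i : Fin N, (∃ G : MultilinearMap ℂ (fun _ : Fin d => TF K m) ℂ,
      ∀ v, (ω i : (Fin d → TF K m) → ℂ) v = G v) ∧
      ∀ y : Fin d → ∀ i, Fin (m i) → K i, ∃ p : ℚ,
        (ω i : (Fin d → TF K m) → ℂ) (fun r => embF (y r)) = p :=
    fun i => hMlt I K c m h d hc (ω i) (ω i).2
  choose g hg using fun i => (hM i).1
  let G : MultilinearMap ℂ (fun _ : Fin d => TF K m) ℂ := ∑ i, ((φ (cf i) : ℚ) : ℂ) • g i
  have hGv : ∀ v, G v = ∑ i, ((φ (cf i) : ℚ) : ℂ) * (ω i : (Fin d → TF K m) → ℂ) v := by
    intro v
    simp only [G]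
    rw [_root_.sum_apply]
    exact Finset.sum_congr rfl fun i _ => by rw [_root_.smul_apply, hg, smul_eq_mul]
  have hFG : ∀ v, (F - G) v = 0 := by
    refine Dsu_ext _ fun y => ?_
    choose q hq using fun i => (hM i).2 y
    obtain ⟨p, hp⟩ := hrat y
    have h1 : F (fun r => embF (y r)) = ∑ i, cf i * (q i : ℂ) := by
      have h0 := congrFun hω (fun r => embF (y r))
      rw [Finset.sum_apply] at h0
      rw [← h0]
      exact Finset.sum_congr rfl fun i _ => by
        rw [Pi.smul_apply, hq, smul_eq_mul]
    have h2 : G (fun r => embF (y r)) = ((∑ i, φ (cf i) * q i : ℚ) : ℂ) := by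
      rw [hGv]
      push_cast
      exact Finset.sum_congr rfl fun i _ => by rw [hq]
    have h3 : p = ∑ i, φ (cf i) * q i := by
      rw [← hφ' p, ← hp, h1, map_sum]
      exact Finset.sum_congr rfl fun i _ => hφ2 _ _
    rw [_root_.sub_apply, h2, hp, h3, sub_self]
  refine ⟨N, fun j => φ (cf j), fun j => (ω j : (Fin d → TF K m) → ℂ), fun j => (ω j).2,
    fun v => ?_⟩
  rw [← hGv]
  exact sub_eq_zero.1 (hFG v)

end Pool.Agent.KTP
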