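import Pool.Agent.KTP.St
import Pool.Agent.K3P.Dsd

/-!
# KTP [Fin]: the space of the basic functions is finite dimensional
-/

set_option autoImplicit false

namespace Pool.Agent.KTP

open Module Matrix NumberField Pool.Agent.Helper7 Pool.Agent.KS Pool.Agent.Ball Pool.Agent.KSE
  Pool.Agent.K3P
open Pool.Agent.GPC (AbVar TC IsRatT qf df HX HU IsGrU IsBasicU IsGenU)

/-- the function of a multilinear form -/
def Fin_fn (K : Type) [Field K] [NumberField K] (m d : ℕ) :
    MultilinearMap ℂ (fun _ : Fin d => TC K m) ℂ →ₗ[ℂ] ((Fin d → TC K m) → ℂ) where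
  toFun F v := F v
  map_add' _ _ := rfl
  map_smul' _ _ := rfl

theorem thm_Fin : St_Fin := by
  intro K _ _ c m d h
  have h1 : Submodule.span ℂ {ω : (Fin d → TC K m) → ℂ | Bas1 c h d ω} ≤
      LinearMap.range (Fin_fn K m d) := by
    refine Submodule.span_le.mpr ?_
    rintro ω ⟨l, l₁, e, z, z₁, -, hv⟩
    refine ⟨Dsd_M h e z z₁, ?_⟩
    funext v
    rw [hv]
    exact Dsd_M_apply h e z z₁ v
  exact Submodule.finiteDimensional_of_le h1

end Pool.Agent.KTP
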