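import Pool.Agent.KTP.StH
import Pool.Agent.K3P.Asm
import Pool.Agent.K3P.Inv
import Pool.Agent.K3P.Bet

/-!
# KTP [Hod]: the operator of degree
-/

set_option autoImplicit false

namespace Pool.Agent.KTP

open Module Matrix NumberField Pool.Agent.Helper7 Pool.Agent.KS Pool.Agent.Ball Pool.Agent.KSE
  Pool.Agent.Helper28.GPC Pool.Agent.KSR Pool.Agent.K3P
open Pool.Agent.GPC (AbVar TC)

theorem thm_Hod : St_Hod := by
  intro A K _ _ c m S hg
  have hκ : Nonempty (Fin A.g ⊕ Fin A.g) := ⟨Sum.inl ⟨0, Nat.pos_of_ne_zero hg⟩⟩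
  obtain ⟨σ₀, x, hx, hx1, hx2⟩ := S.hodge
  have hnd := k3_nd S.conjugation S.hermitian hx
  have MM := mde A S hnd
  have h1 := hod_eq A S hnd σ₀ x (k3_ne hx) hx1 hx2
  obtain ⟨Z, hZd⟩ : ∃ Z : Module.End ℂ A.H1, Z = (1 / (4 * pr S.h σ₀ x (star x)) : ℂ) •
    (tau (ts (lt A S) σ₀) x * tau (ts (lt A S) (cj σ₀)) (star x) -
        tau (ts (lt A S) (cj σ₀)) (star x) * tau (ts (lt A S) σ₀) x) := ⟨_, rfl⟩
  rw [← hZd] at h1
  have hZ : Z ∈ bvS (lt A S) := by
    rw [hZd]
    exact Submodule.smul_mem _ _ (tau_mem_bvS _ _ _ _)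
  obtain ⟨M, hM, hMs⟩ := exists_act_of_mem S.conjugation S.hermitian hnd MM.cliff Z hZ
  obtain ⟨P, hP⟩ : ∃ P, P = hod A := ⟨_, rfl⟩
  have hPP : ∀ v, P (P v) = P v := by
    intro v
    rw [hP]
    exact hod_idem A v
  have hfil : ∀ v, A.IsFil v ↔ P v = 0 := by
    intro v
    rw [hP]
    exact hod_fil A
  -- the commutator with the Hodge projector
  have h3 : ∀ y u, opT (lt A S) (Inv_op M y) u =
      opT (lt A S) y (P u) - P (opT (lt A S) y u) := by
    intro y u
    have e1 := LinearMap.congr_fun (Inv_act hM y) u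
    have e2 : ∀ w, P w = (1 / 2 : ℂ) • w - Z w := by
      intro w
      rw [hP, h1]
      rfl
    have e3 : Z (opT (lt A S) y u) - opT (lt A S) y (Z u) = opT (lt A S) (Inv_op M y) u := e1
    rw [← e3, e2, e2, map_sub, map_smul]
    abel
  have h0 : ∀ y, (∀ u, opT (lt A S) y u = 0) → y = 0 := fun y hy =>
    Bet_opT_zero MM y (LinearMap.ext hy)
  have hsub : ∀ y y', (∀ u, opT (lt A S) y u = opT (lt A S) y' u) → y = y' := by
    intro y y' hyy
    have e1 := h0 (y - y') ?_
    · exact sub_eq_zero.mp e1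
    · intro u
      have e2 : opT (lt A S) (y - y') = opT (lt A S) y - opT (lt A S) y' := by
        rw [opT, opT, opT, ← Finset.sum_sub_distrib]
        exact Finset.sum_congr rfl fun σ _ => map_sub _ _ _
      rw [e2, LinearMap.sub_apply, hyy, sub_self]
  refine ⟨Z, hZ, M, hM, hMs, ?_, ?_, ?_⟩
  · rw [h1]
    module
  · intro y
    apply hsub
    intro u
    simp only [h3, map_sub, hPP]
    abel
  · intro a y hy
    have hop : ∀ u, ∑ σ : K →+* ℂ, ∑ j, y σ j • S.e σ j u = opT (lt A S) y u := fun u =>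
      (asm_op S y u).symm
    have hker : ∀ u, A.IsFil (u - P u) := by
      intro u
      rw [hfil, map_sub, hPP, sub_self]
    refine ⟨fun ha => ?_, fun ha => ?_, fun ha => ?_⟩
    · -- F^0
      apply hsub
      intro u
      have e1 := hy 0 (u - P u) ⟨fun _ => hker u, fun h => absurd h (lt_irrefl _)⟩
      rw [hop] at e1
      have e2 := (hfil _).mp (e1.1 (by omega))
      rw [map_sub, map_sub] at e2
      simp only [h3, map_sub, hPP]
      rw [sub_eq_zero] at e2
      rw [e2]
      abel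
    · -- F^1
      apply hsub
      intro u
      have e1 := hy 0 (u - P u) ⟨fun _ => hker u, fun h => absurd h (lt_irrefl _)⟩
      have e2 := hy (-1) u ⟨fun h => absurd h (by omega), fun h => absurd h (by omega)⟩
      rw [hop] at e1 e2
      have e3 := e1.2 (by omega)
      have e4 := (hfil _).mp (e2.1 (by omega))
      rw [map_sub, sub_eq_zero] at e3
      rw [h3, ← e3, e4, sub_zero]
    · -- F^2
      apply h0
      intro u
      have e2 := hy (-1) u ⟨fun h => absurd h (by omega), fun h => absurd h (by omega)⟩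
      rw [hop] at e2
      exact e2.2 (by omega)

end Pool.Agent.KTP
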