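import Pool.Agent.KTP.StH
import Pool.Agent.K3P.Inv

/-!
# KTP [Htf]: forms in the variables `T_i` and `H_1(A_i)` are Hodge classes
-/

set_option autoImplicit false

namespace Pool.Agent.KTP

open Module Matrix NumberField Pool.Agent.Helper7 Pool.Agent.KS Pool.Agent.Ball Pool.Agent.KSE
  Pool.Agent.Helper28.GPC Pool.Agent.KSR Pool.Agent.K3P
open Pool.Agent.GPC (AbVar TC IsRatT HX HU Form IsBetti IsDeRham H1)

/-- alternating forms are multilinear forms -/
def Htf_m (W : Type) [AddCommGroup W] [Module ℂ W] (q : ℕ) :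
    (W [⋀^Fin q]→ₗ[ℂ] ℂ) →ₗ[ℂ] MultilinearMap ℂ (fun _ : Fin q => W) ℂ where
  toFun α := (α : MultilinearMap ℂ (fun _ : Fin q => W) ℂ)
  map_add' _ _ := rfl
  map_smul' _ _ := rfl

section

variable {I : Type} {K : I → Type} [∀ i, Field (K i)] [∀ i, NumberField (K i)] {m : I → ℕ}

/-- the operator of degree on the sum of the `T_i` -/
noncomputable def Htf_D (M : ∀ i, (K i →+* ℂ) → Matrix (Fin (m i)) (Fin (m i)) ℂ) :
    Module.End ℂ (TF K m) where
  toFun y := fun i => Inv_op (M i) (y i)
  map_add' y y' := by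
    funext i
    exact map_add _ _ _
  map_smul' r y := by
    funext i
    exact (Inv_op (M i)).map_smul r (y i)

end

theorem thm_Htf (hKil : St_Kil) (hMix : St_Mix) (hHod : St_Hod) (hHty : St_Hty) : St_Htf := by
  intro I _ _ A K _ _ c m S hg hAdm hI hHom n k p F hQ hA a b v w hab hv hw
  have hκ : ∀ i, Nonempty (Fin (A i).g ⊕ Fin (A i).g) :=
    fun i => ⟨Sum.inl ⟨0, Nat.pos_of_ne_zero (hg i)⟩⟩
  have hϖ := Complex.two_pi_I_ne_zero
  have hnd : ∀ i, (S i).h.det ≠ 0 := by
    intro i
    obtain ⟨σ₀, x, hx, -, -⟩ := (S i).hodge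
    exact k3_nd (S i).conjugation (S i).hermitian hx
  have MM := fun i => mde (A i) (S i) (hnd i)
  choose Z hZ M hM hMs hZh hM3 hFil using fun i => hHod (A i) (K i) (c i) (m i) (S i) (hg i)
  have hinv := hMix I (fun i => Fin (A i).g ⊕ Fin (A i).g) _ (fun i => pData (A i)) K c m
    (fun i => (S i).h) (fun i => lt (A i) (S i)) hϖ MM k (hKil A S hg hAdm hI hHom _) n p
    ((Htf_m (HW (fun i => Fin (A i).g ⊕ Fin (A i).g) k) (2 * p)).compMultilinearMap F)
    (fun y w hw => hQ y w fun s i l => (mem_pData_Q _ _).mp (hw s i l))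
    (fun v w hv hw => hA v w hv fun s i l => hw s i l)
  refine hHty (TF K m) (HW (fun i => Fin (A i).g ⊕ Fin (A i).g) k) n p (Htf_D M)
    (lift k fun i => - hod (A i)) ?_ ?_
    ((Htf_m (HW (fun i => Fin (A i).g ⊕ Fin (A i).g) k) (2 * p)).compMultilinearMap F) ?_ a b v w
    hab ?_ ?_
  · intro y
    funext i
    exact hM3 i (y i)
  · intro w
    funext i l
    show -(hod (A i) (-(hod (A i) (w i l)))) = - (-(hod (A i) (w i l)))
    rw [map_neg, hod_idem]
  · intro v w
    have e1 : ∀ s, Htf_D M (v s) = ∑ i, Pi.single i (Inv_op (M i) (v s i)) := fun s =>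
      (Finset.univ_sum_single _).symm
    have e2 : ∀ s, lift k (fun i => - hod (A i)) (w s) = (-(1 / 2 : ℂ)) • w s +
        ∑ i, lift k (Pi.single i (Z i)) (w s) := by
      intro s
      funext j l
      rw [lift_apply, hZh, Pi.add_apply, Pi.add_apply, Finset.sum_apply, Finset.sum_apply,
        Finset.sum_eq_single j, lift_apply, Pi.single_eq_same]
      · rfl
      · intro i _ hi
        rw [lift_apply, Pi.single_eq_of_ne (Ne.symm hi)]
        rfl
      · intro h; exact absurd (Finset.mem_univ _) h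
    obtain ⟨G, hGd⟩ : ∃ G, G = (Htf_m (HW (fun i => Fin (A i).g ⊕ Fin (A i).g) k)
      (2 * p)).compMultilinearMap F := ⟨_, rfl⟩
    rw [← hGd] at hinv ⊢
    have e3 : ∀ s, G (Function.update v s (Htf_D M (v s))) w =
        ∑ i, G (Function.update v s (Pi.single i (Inv_op (M i) (v s i)))) w := by
      intro s
      rw [e1, MultilinearMap.map_update_sum, _root_.sum_apply]
    have e4 : ∀ s, G v (Function.update w s (lift k (fun i => - hod (A i)) (w s))) =
        (-(1 / 2 : ℂ)) * G v w + ∑ i, G v (Function.update w s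
          (lift k (Pi.single i (Z i)) (w s))) := by
      intro s
      rw [e2, MultilinearMap.map_update_add, MultilinearMap.map_update_smul,
        Function.update_eq_self, MultilinearMap.map_update_sum, smul_eq_mul]
    rw [Finset.sum_congr rfl fun s _ => e3 s, Finset.sum_congr rfl fun s _ => e4 s,
      Finset.sum_add_distrib, Finset.sum_comm, Finset.sum_comm (f := fun s i => G v
        (Function.update w s (lift k (Pi.single i (Z i)) (w s)))), Finset.sum_const,
      Finset.card_univ, Fintype.card_fin, nsmul_eq_mul]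
    have e5 : (∑ i, ∑ s, G (Function.update v s (Pi.single i (Inv_op (M i) (v s i)))) w) +
        ∑ i, ∑ s, G v (Function.update w s (lift k (Pi.single i (Z i)) (w s))) = 0 := by
      rw [← Finset.sum_add_distrib]
      exact Finset.sum_eq_zero fun i _ => hinv i (Z i) (hZ i) (M i) (hM i) (hMs i) v w
    push_cast
    linear_combination e5
  · intro s
    refine ⟨fun h => ?_, fun h => ?_, fun h => ?_⟩
    · funext i
      exact (hFil i (a s) (v s i) (hv s i)).1 h
    · funext i
      exact (hFil i (a s) (v s i) (hv s i)).2.1 h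
    · funext i
      exact (hFil i (a s) (v s i) (hv s i)).2.2 h
  · intro s
    refine ⟨fun h => ?_, fun h => ?_⟩
    · funext i l
      show -(hod (A i) (w s i l)) = 0
      rw [neg_eq_zero]
      exact (hod_fil (A i)).mp ((hw s i l).1 h)
    · funext i l
      exact (hw s i l).2 h

end Pool.Agent.KTP
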