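import Pool.Agent.KTP.Types
import Pool.Agent.K3P.StD

/-!
# KTP: Grothendieck classes on products of K3 surfaces. Definitions and frozen statements

The family version of `K3P`. Every module `Pool/Agent/KTP/<X>.lean` imports this file and proves
`theorem thm_<X> : St_<X>` (with the hypotheses named in the docstring), namespace `Pool.Agent.KTP`, own
lemmas with names starting with the name of the module. The docstrings contain the proofs.
-/

set_option autoImplicit false

namespace Pool.Agent.KTP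

open Module Matrix NumberField Pool.Agent.Helper7 Pool.Agent.KS Pool.Agent.Ball Pool.Agent.KSE
  Pool.Agent.K3P
open Pool.Agent.GPC (AbVar TC IsRatT qf df HX HU IsGrU IsBasicU IsGenU)

section defs

variable {I : Type} {K : I → Type} [∀ i, Field (K i)] [∀ i, NumberField (K i)] {m : I → ℕ}

/-- the sum of all `T_i ⊗ ℂ` -/
abbrev TF (K : I → Type) [∀ i, Field (K i)] (m : I → ℕ) : Type := (i : I) → TC (K i) (m i)

/-- the rational vectors -/
def embF (y : ∀ i, Fin (m i) → K i) : TF K m := fun i => emb (y i)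

/-- products of forms `q_i(z x, y)` and (if `c_i = id`) `Tr (z det)` in `d` variables, one index `i` -/
def Bas1 {K : Type} [Field K] [NumberField K] {m : ℕ} (c : K →+* K)
    (h : Matrix (Fin m) (Fin m) K) (d : ℕ) (ω : (Fin d → TC K m) → ℂ) : Prop :=
  ∃ (l l₁ : ℕ) (e : (Fin l × Fin 2) ⊕ (Fin l₁ × Fin m) ≃ Fin d) (z : Fin l → K)
    (z₁ : Fin l₁ → K), (c ≠ RingHom.id K → l₁ = 0) ∧ ∀ v, ω v =
    (∏ a, qz h (z a) (v (e (.inl (a, 0)))) (v (e (.inl (a, 1))))) *
      ∏ b, df (z₁ b) fun k => v (e (.inr (b, k)))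

/-- products of forms `q_i(z x, y)` and (if `c_i = id`) `Tr (z det)` in `d` variables, all indices -/
def Bas (c : ∀ i, K i →+* K i) (h : ∀ i, Matrix (Fin (m i)) (Fin (m i)) (K i)) (d : ℕ)
    (ω : (Fin d → TF K m) → ℂ) : Prop :=
  ∃ (l l₁ : ℕ) (i : Fin l → I) (j : Fin l₁ → I) (z : ∀ b, K (i b)) (z₁ : ∀ b, K (j b))
    (e : (Fin l × Fin 2) ⊕ (Σ b : Fin l₁, Fin (m (j b))) ≃ Fin d),
    (∀ b, c (j b) = RingHom.id (K (j b))) ∧ ∀ v, ω v =
      (∏ b, qz (h (i b)) (z b) (v (e (.inl (b, 0))) (i b)) (v (e (.inl (b, 1))) (i b))) *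
      ∏ b, df (z₁ b) fun k => v (e (.inr ⟨b, k⟩)) (j b)

/-- invariance under the rotations of all `T_i` -/
def InvF [DecidableEq I] (h : ∀ i, Matrix (Fin (m i)) (Fin (m i)) (K i)) {d : ℕ}
    (F : MultilinearMap ℂ (fun _ : Fin d => TF K m) ℂ) : Prop :=
  ∀ (i : I) (M : (K i →+* ℂ) → Matrix (Fin (m i)) (Fin (m i)) ℂ), SkewM (h i) M →
    ∀ v : Fin d → TF K m,
      ∑ r, F (Function.update v r (Pi.single i fun σ => M σ *ᵥ v r i σ)) = 0

/-- the Lie algebras of the Kuga-Satake structures kill all Grothendieck forms on `⊕ H_1(A_i)` -/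
def KillF [DecidableEq I] {κ : I → Type} [∀ i, Fintype (κ i)] [∀ i, DecidableEq (κ i)] {ϖ : ℂ}
    (P : ∀ i, PData (κ i) ϖ) (t : ∀ i, Fin (m i) → K i → Module.End ℂ (κ i → ℂ)) : Prop :=
  ∀ (k : ℕ) (α : MultilinearMap ℂ (fun _ : Fin (2 * k) => (i : I) → κ i → ℂ) ℂ),
    (∀ v : Fin (2 * k) → (i : I) → κ i → ℂ, (∀ r i, v r i ∈ (P i).Q) → ∃ p : ℚ, α v = ϖ ^ k * p) →
    (∀ v : Fin (2 * k) → (i : I) → κ i → ℂ, (∀ r i j, IsAlgebraic ℚ (v r i j)) →
      IsAlgebraic ℚ (α v)) →
    ∀ i, ∀ Z ∈ bvS (t i), ∀ v, ∑ r, α (Function.update v r (Pi.single i (Z (v r i)))) = 0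

end defs

/-- **PRD.**  A function of several variables which in every variable lies in a finite dimensional
space of functions is a sum of products.  PROOF.  (1) For a finite dimensional `E ≤ (X → ℂ)` there are
`k`, points `p : Fin k → X` and `ω : Fin k → (X → ℂ)` in `E` with `g x = ∑ b, g (p b) * ω b x` for all
`g ∈ E`: finitely many evaluations are injective on `E` (the intersection of the kernels of all
evaluations on `E` is 0, finite dimension), and an injective linear map `E → ℂ^k` has a left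
inverse; `ω b` is the image of the `b`-th unit vector.
(2) By induction on the finset `S`: every `f` with the property (for `i ∉ S₀`) is in the span of the
functions `y ↦ (∏ i ∈ S, u i (y i)) * w y`, `u i ∈ E i`, `w` independent of the coordinates in `S`
(`w (update y i x) = w y` for `i ∈ S`) and with the property for all `i ∉ S`. Step `insert j S`: by (1)
`w y = ∑ b, w (update y j (p b)) * ω b (y j)` and `y ↦ w (update y j (p b))` is independent of the
coordinates in `insert j S` and has the property for the other ones (`Function.update_comm`).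
(3) For `S = univ` the function `w` is constant (change the coordinates one by one), and the constant
can be put into one of the factors, or, if `I` is empty, use the scalar multiplication of the span. -/
def St_Prd : Prop := ∀ (I : Type) [Fintype I] [DecidableEq I] (X : I → Type)
  (E : ∀ i, Submodule ℂ (X i → ℂ)), (∀ i, FiniteDimensional ℂ (E i)) →
  ∀ f : (∀ i, X i) → ℂ, (∀ (i : I) (y : ∀ i, X i), (fun x => f (Function.update y i x)) ∈ E i) →
    f ∈ Submodule.span ℂ {g : (∀ i, X i) → ℂ | ∃ u : ∀ i, X i → ℂ, (∀ i, u i ∈ E i) ∧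
      g = fun y => ∏ i, u i (y i)}

/-- **ONE.**  The first fundamental theorem for one index.  PROOF.  `K3P.thm_Ord` (with `K3P.Ffd_`) if
`c = id`, `KSE.fftC` if `c ≠ id` (copy the case distinction in `K3P.asm`), gives `G ∈ span (PPD c h d)`, and
`K3P.Dsd_PPD` gives `G ∈ span (Dsd_S c h d)`; the elements of `Dsd_S` are `Bas1` functions
(`K3P.Dsd_M_apply`). -/
def St_One : Prop := ∀ (K : Type) [Field K] [NumberField K] (c : K →+* K) (m d : ℕ)
  (h : Matrix (Fin m) (Fin m) K), (∀ (σ : K →+* ℂ) (x : K), cj σ x = σ (c x)) →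
  (∀ a b, c (h a b) = h b a) → h.det ≠ 0 →
  ∀ G : MultilinearMap ℂ (fun _ : Fin d => TC K m) ℂ,
  (∀ M : (K →+* ℂ) → Matrix (Fin m) (Fin m) ℂ, SkewM h M → ∀ v : Fin d → TC K m,
    ∑ r, G (Function.update v r fun σ => M σ *ᵥ v r σ) = 0) →
  (fun v => G v) ∈ Submodule.span ℂ {ω : (Fin d → TC K m) → ℂ | Bas1 c h d ω}

/-- **FIN.**  PROOF.  Every `Bas1` function is the function of a multilinear form (`K3P.Dsd_M`), and the
space of the multilinear forms on the finite dimensional space `TC K m` is finite dimensional. -/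
def St_Fin : Prop := ∀ (K : Type) [Field K] [NumberField K] (c : K →+* K) (m d : ℕ)
  (h : Matrix (Fin m) (Fin m) K), FiniteDimensional ℂ
    (Submodule.span ℂ {ω : (Fin d → TC K m) → ℂ | Bas1 c h d ω})

/-- **COM.**  The product of basic functions of different indices is basic.  `W` is the equivalence of
the slots of the word.  PROOF.  `ω i` has the data `l i, l₁ i, e i, z i, z₁ i`.  Put
`L = Σ i, Fin (l i)`, `L₁ = Σ i, Fin (l₁ i)`, with the maps to `I` given by the first components, and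
compose `(L × Fin 2) ⊕ (Σ b : L₁, Fin (m b.1)) ≃ Σ i, ((Fin (l i) × Fin 2) ⊕ (Fin (l₁ i) × Fin (m i))) ≃
Σ i, Fin (D i) ≃ Fin d`.  Enumerate `L` and `L₁` by `Fin` of their cardinalities (the products over
`Fin l` are products over `L`, `Fintype.prod_equiv`, `Fintype.prod_sigma`).  If `c i ≠ id` then `l₁ i = 0`,
so `c (j b) = id` for all `b`. -/
def St_Com : Prop := ∀ (I : Type) [Fintype I] [DecidableEq I] (K : I → Type) [∀ i, Field (K i)]
  [∀ i, NumberField (K i)] (c : ∀ i, K i →+* K i) (m : I → ℕ)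
  (h : ∀ i, Matrix (Fin (m i)) (Fin (m i)) (K i)) (d : ℕ) (D : I → ℕ)
  (W : (Σ i, Fin (D i)) ≃ Fin d) (ω : ∀ i, (Fin (D i) → TC (K i) (m i)) → ℂ),
  (∀ i, Bas1 (c i) (h i) (D i) (ω i)) →
  Bas c h d fun v => ∏ i, ω i fun k => v (W ⟨i, k⟩) i

/-- **WRD** (from `St_Prd`, `St_One`, `St_Fin`, `St_Com`).  The first fundamental theorem for the product of
the orthogonal groups.  PROOF.  (1) `v r = ∑ i, Pi.single i (v r i)`, so
`F v = ∑ w : Fin d → I, F (fun r => Pi.single (w r) (v r (w r)))` (`MultilinearMap.map_sum`).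
(2) Fix `w`, `D i` the number of `r` with `w r = i`, `W : (Σ i, Fin (D i)) ≃ Fin d` with `w (W ⟨i, k⟩) = i`
(`Equiv.sigmaFiberEquiv`).  For `y : ∀ i, Fin (D i) → TC (K i) (m i)` let `Y y : Fin d → TF K m` be the family
with `Y y (W ⟨i, k⟩) = Pi.single i (y i k)` and `f y = F (Y y)`.  For fixed `i, y` the function
`x ↦ f (update y i x)` is a multilinear form `G` in `Fin (D i)` variables, and for skew `M` the sum
`∑ k, G (update x k (M x_k))` is the sum in `InvF` for `v = Y (update y i x)`, because the slots `r` with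
`w r ≠ i` contribute `F` of a family with the zero vector at `r`.  So `St_One` gives the hypothesis of
`St_Prd` with `E i` the span of the `Bas1` functions.
(3) So `f` is in the span of the products `∏ i, u i (y i)` with `u i` in the span of the `Bas1`
functions; expand the product (`Submodule.span_induction` for one index after the other, or write
`u i` as a finite sum and use `Finset.prod_univ_sum`): `f` is in the span of the products of `Bas1`
functions, and with `y i k = v (W ⟨i, k⟩) i` and `St_Com` the term of `w` is in the span of the `Bas`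
functions. -/
def St_Wrd : Prop := ∀ (I : Type) [Fintype I] [DecidableEq I] (K : I → Type) [∀ i, Field (K i)]
  [∀ i, NumberField (K i)] (c : ∀ i, K i →+* K i) (m : I → ℕ)
  (h : ∀ i, Matrix (Fin (m i)) (Fin (m i)) (K i)) (d : ℕ),
  (∀ (i : I) (σ : K i →+* ℂ) (x : K i), cj σ x = σ (c i x)) →
  (∀ i a b, c i (h i a b) = h i b a) → (∀ i, (h i).det ≠ 0) →
  ∀ F : MultilinearMap ℂ (fun _ : Fin d => TF K m) ℂ, InvF h F →
    (fun v => F v) ∈ Submodule.span ℂ {ω : (Fin d → TF K m) → ℂ | Bas c h d ω}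

/-- **MLT.**  PROOF.  As `K3P.Dsd_update` and `K3P.Dsd_M`: for every slot `r`, `ω (update v r x)` is
`C * f x` with `C` independent of `x` and `f` additive and homogeneous (`r = e (inl (b, 0))`,
`e (inl (b, 1))`: `Dsc_qz_add_left` etc.; `r = e (inr ⟨b, k⟩)`: `Dsd_df_add`, `Dsd_df_smul`); the other
factors do not depend on the slot `r` because `e` is injective.  Rational values on `embF`: `Dsd_rat`
and the trace formula for `qz` (`thm_Rtb`, or as in `thm_Dsd`). -/
def St_Mlt : Prop := ∀ (I : Type) [Fintype I] [DecidableEq I] (K : I → Type) [∀ i, Field (K i)]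
  [∀ i, NumberField (K i)] (c : ∀ i, K i →+* K i) (m : I → ℕ)
  (h : ∀ i, Matrix (Fin (m i)) (Fin (m i)) (K i)) (d : ℕ),
  (∀ (i : I) (σ : K i →+* ℂ) (x : K i), cj σ x = σ (c i x)) →
  ∀ ω : (Fin d → TF K m) → ℂ, Bas c h d ω →
    (∃ G : MultilinearMap ℂ (fun _ : Fin d => TF K m) ℂ, ∀ v, ω v = G v) ∧
    ∀ y : Fin d → ∀ i, Fin (m i) → K i, ∃ p : ℚ, ω (fun r => embF (y r)) = p

/-- **DSU** (from `St_Mlt`).  PROOF.  `F v = ∑ j, c_j * ω_j v` with complex `c_j`; let `φ : ℂ →ₗ[ℚ] ℚ` be a left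
inverse of the inclusion (as in `thm_Dsd`), `F' v = ∑ j, (φ c_j) * ω_j v`.  On families of vectors `embF`
both agree (apply `φ` to the rational number `F (..) = ∑ c_j * (rational)`).  Both are multilinear
(`St_Mlt`) and the vectors `embF y` span `TF K m` over `ℂ` (`thm_Rtb` for every `i`: the `Pi.single i (emb x)`
are vectors `embF`), so they are equal: induction over the slots
(or `Basis.ext_multilinear` with a basis of vectors `embF`, `Module.Basis.extract` from the span). -/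
def St_Dsu : Prop := ∀ (I : Type) [Fintype I] [DecidableEq I] (K : I → Type) [∀ i, Field (K i)]
  [∀ i, NumberField (K i)] (c : ∀ i, K i →+* K i) (m : I → ℕ)
  (h : ∀ i, Matrix (Fin (m i)) (Fin (m i)) (K i)) (d : ℕ),
  (∀ (i : I) (σ : K i →+* ℂ) (x : K i), cj σ x = σ (c i x)) →
  ∀ F : MultilinearMap ℂ (fun _ : Fin d => TF K m) ℂ,
  (fun v => F v) ∈ Submodule.span ℂ {ω : (Fin d → TF K m) → ℂ | Bas c h d ω} →
  (∀ y : Fin d → ∀ i, Fin (m i) → K i, ∃ p : ℚ, F (fun r => embF (y r)) = p) →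
  ∃ (N : ℕ) (p : Fin N → ℚ) (ω : Fin N → (Fin d → TF K m) → ℂ),
    (∀ j, Bas c h d (ω j)) ∧ ∀ v, F v = ∑ j, (p j : ℂ) * ω j v

/-- **INV.**  PROOF.  `thm_Bet` (with `thm_Drb`, `thm_Rtb`) for every `i` gives `β i`.  Put
`α w = F (fun s i => β i (w (2 s) i) (w (2 s + 1) i))`, multilinear in `2 * d` variables
`w r : (i : I) → κ i → ℂ`, values in `ϖ ^ d * ℚ` on rational vectors (`β i u v = ϖ • emb y`) and algebraic on
algebraic vectors.  `KillF` with `Z ∈ bvS (t i)`, `ActM (t i) Z M` (`exists_bvE`), and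
`β i (Z u) v + β i u (Z v) = M (β i u v)` (proof as in `K3P.thm_Inv`, step (3); it uses
`(P i).ψ (Z u) v + (P i).ψ u (Z v) = 0`, which follows from `KillF` for the form `(P i).ψ (w 0 i) (w 1 i)`)
give the assertion for the families `v r = fun i => β i (u r i) (u' r i)`.  The vectors `β i u u'` span
`TC (K i) (m i)`, so the vectors `fun i => β i (u i) (u' i)` (take `u i = 0` for all but one `i`) span
`TF K m`; multilinearity as in `K3P.thm_Inv`, step (4). -/
def St_Inv : Prop := ∀ (I : Type) [Fintype I] [DecidableEq I] (κ : I → Type) [∀ i, Fintype (κ i)]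
  [∀ i, DecidableEq (κ i)] [∀ i, Nonempty (κ i)] (ϖ : ℂ) (P : ∀ i, PData (κ i) ϖ) (K : I → Type)
  [∀ i, Field (K i)] [∀ i, NumberField (K i)] (c : ∀ i, K i →+* K i) (m : I → ℕ)
  (h : ∀ i, Matrix (Fin (m i)) (Fin (m i)) (K i))
  (t : ∀ i, Fin (m i) → K i → Module.End ℂ (κ i → ℂ)), ϖ ≠ 0 →
  (∀ i, MD (P i) (c i) (h i) (t i)) → KillF P t → ∀ (d : ℕ)
  (F : MultilinearMap ℂ (fun _ : Fin d => TF K m) ℂ),
  (∀ y : Fin d → ∀ i, Fin (m i) → K i, ∃ p : ℚ, F (fun r => embF (y r)) = p) →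
  (∀ v : Fin d → TF K m, (∀ r i, DR (t i) (v r i)) → IsAlgebraic ℚ (F v)) → InvF h F

/-- **MXU.**  `Q`, `D` and `B` are arbitrary.  PROOF.  As `K3P.thm_Mxd`, with `W` for `TC K m`. -/
def St_Mxu : Prop := ∀ (W : Type) [AddCommGroup W] [Module ℂ W] (Q D : W → Prop)
  (B : (d : ℕ) → ((Fin d → W) → ℂ) → Prop) (n : ℕ),
  (∀ (d : ℕ) (F : MultilinearMap ℂ (fun _ : Fin d => W) ℂ), d ≤ n →
    (∀ v : Fin d → W, (∀ s, Q (v s)) → ∃ p : ℚ, F v = p) →
    (∀ v : Fin d → W, (∀ s, D (v s)) → IsAlgebraic ℚ (F v)) →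
    ∃ (N : ℕ) (p : Fin N → ℚ) (ω : Fin N → (Fin d → W) → ℂ),
      (∀ j, B d (ω j)) ∧ ∀ v, F v = ∑ j, (p j : ℂ) * ω j v) →
  ∀ (r : ℕ) (F : MultilinearMap ℂ (fun _ : Fin n => (Fin r → ℂ) × W) ℂ), Q 0 → D 0 →
    (∀ v : Fin n → (Fin r → ℂ) × W, (∀ s, (∀ i, ∃ p : ℚ, (v s).1 i = p) ∧ Q (v s).2) →
      ∃ p : ℚ, F v = p) →
    (∀ v : Fin n → (Fin r → ℂ) × W, (∀ s, (∀ i, IsAlgebraic ℚ ((v s).1 i)) ∧ D (v s).2) →
      IsAlgebraic ℚ (F v)) →
    ∃ (N : ℕ) (p : Fin N → ℚ) (ω : Fin N → (Fin n → (Fin r → ℂ) × W) → ℂ),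
      (∀ j, ∃ (d l : ℕ) (ε : Fin d ⊕ Fin l ≃ Fin n) (a : Fin l → Fin r)
        (ω' : (Fin d → W) → ℂ), B d ω' ∧ ∀ v, ω j v =
          ω' (fun s => (v (ε (.inl s))).2) * ∏ b, (v (ε (.inr b))).1 (a b)) ∧
      ∀ v, F v = ∑ j, (p j : ℂ) * ω j v

end Pool.Agent.KTP
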