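import Pool.Agent.KTP.TypesH
import Pool.Agent.KTP.St
import Pool.Agent.K3P.Kil
import Pool.Agent.K3P.Inv

/-!
# KTP: frozen statements, part two

Forms with variables in the `T_i` and in the `H_1(A_i)`.
-/

set_option autoImplicit false

namespace Pool.Agent.KTP

open Module Matrix NumberField Pool.Agent.Helper7 Pool.Agent.KS Pool.Agent.Ball Pool.Agent.KSE
  Pool.Agent.Helper28.GPC Pool.Agent.KSR Pool.Agent.K3P
open Pool.Agent.GPC (AbVar TC IsRatT qf df HX HU IsGrU IsBasicU IsGenU IsGrUA IsHodgeUA IsFilU Form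
  IsBetti IsDeRham H1 OddSparse)

section defs

variable {I : Type} {K : I → Type} [∀ i, Field (K i)] [∀ i, NumberField (K i)] {m : I → ℕ}

/-- the Lie algebras of the Kuga-Satake structures kill all Grothendieck forms on `⊕ H_1(A_i)^{n_i}` -/
def KillH [DecidableEq I] {κ : I → Type} [∀ i, Fintype (κ i)] [∀ i, DecidableEq (κ i)] {ϖ : ℂ}
    (P : ∀ i, PData (κ i) ϖ) (t : ∀ i, Fin (m i) → K i → Module.End ℂ (κ i → ℂ)) (n : I → ℕ) :
    Prop :=
  ∀ (k : ℕ) (α : MultilinearMap ℂ (fun _ : Fin (2 * k) => HW κ n) ℂ),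
    (∀ v : Fin (2 * k) → HW κ n, (∀ r, IsRatP n P (v r)) → ∃ q : ℚ, α v = ϖ ^ k * q) →
    (∀ v : Fin (2 * k) → HW κ n, (∀ r i l j, IsAlgebraic ℚ (v r i l j)) → IsAlgebraic ℚ (α v)) →
    ∀ i, ∀ Z ∈ bvS (t i), actForm (lift n (Pi.single i Z)) α = 0

/-- invariance of a form with variables in `⊕ T_i ⊗ ℂ` and in `⊕ H_1(A_i)^{n_i}` -/
def InvH [DecidableEq I] {κ : I → Type} [∀ i, Fintype (κ i)] [∀ i, DecidableEq (κ i)]
    (h : ∀ i, Matrix (Fin (m i)) (Fin (m i)) (K i))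
    (t : ∀ i, Fin (m i) → K i → Module.End ℂ (κ i → ℂ)) (k : I → ℕ) {n p : ℕ}
    (F : MultilinearMap ℂ (fun _ : Fin n => TF K m)
      (MultilinearMap ℂ (fun _ : Fin (2 * p) => HW κ k) ℂ)) : Prop :=
  ∀ i, ∀ Z ∈ bvS (t i), ∀ M, ActM (t i) Z M → SkewM (h i) M →
    ∀ (v : Fin n → TF K m) (w : Fin (2 * p) → HW κ k),
      ∑ s, F (Function.update v s (Pi.single i fun σ => M σ *ᵥ v s i σ)) w +
        ∑ s, F v (Function.update w s (lift k (Pi.single i Z) (w s))) = 0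

/-- the step `F^a` of a filtration with the degrees `-1, 0, 1`, given by the operator `D` of degree -/
def FilD {V : Type} [AddCommGroup V] [Module ℂ V] (D : Module.End ℂ V) (a : ℤ) (y : V) : Prop :=
  (0 ≤ a → D (D y) = D y) ∧ (0 < a → D y = y) ∧ (1 < a → y = 0)

/-- the step `F^b` of a filtration with the degrees `-1, 0`, given by the operator `D` of degree -/
def FilD' {W : Type} [AddCommGroup W] [Module ℂ W] (D : Module.End ℂ W) (b : ℤ) (w : W) : Prop :=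
  (0 ≤ b → D w = 0) ∧ (0 < b → w = 0)

end defs

/-- **KIL.**  PROOF.  If all `c i = id` (and `m i ≠ 4`, or `I` is `Subsingleton`): `KSV.kill_avB` (`Adm` gives
the hypothesis on `m i = 5` as in `K3P.kil`).  Otherwise `I` is `Subsingleton`; let `i : I`; `Form`s on
`HW κ n` become forms on `HW (fun _ : Unit => κ i) (fun _ => n i)` by the obvious equivalence, and
`KSE.killC` applies as in `K3P.kil_cm` (it is proved for every `n`). -/
def St_Kil : Prop := ∀ {I : Type} [Fintype I] [DecidableEq I] (A : I → AbVar) {K : I → Type}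
  [∀ i, Field (K i)] [∀ i, NumberField (K i)] {c : ∀ i, K i →+* K i} {m : I → ℕ}
  (S : ∀ i, (A i).KugaSatakeMul (K i) (c i) (m i)), (∀ i, (A i).g ≠ 0) → (∀ i, Adm (S i)) →
  (Subsingleton I ∨ ∀ i, c i = RingHom.id (K i) ∧ m i ≠ 4) →
  (∀ i j, i ≠ j → ∀ f, (A i).IsMor (A j) f → ∀ v, f v = 0) →
  ∀ n : I → ℕ, KillH (fun i => pData (A i)) (fun i => lt (A i) (S i)) n

/-- **MIX.**  PROOF.  As `K3P.thm_Inv`.  `K3P.thm_Bet` (with `thm_Drb`, `thm_Rtb`) for every `i` gives `β i`.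
Take `e : (Fin 2 × Fin n) ⊕ Fin (2 * p) ≃ Fin (2 * (n + p))` and the form
`α u = F (fun s i => β i (u (e (inl (0, s))) i 0) (u (e (inl (1, s))) i 0))
(fun s i l => u (e (inr s)) i l.succ)` on `HW κ (fun i => k i + 1)`.  It has values in `ϖ^(n+p) * ℚ` on
rational vectors and algebraic values on algebraic ones, so `actForm (lift _ (Pi.single i Z)) α = 0`.
`β i (Z u) v + β i u (Z v) = M (β i u v)` (`K3P.Inv_beta`; the hypothesis on `ψ` from `KillH` for the form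
`(P i).ψ (w 0 i 0) (w 1 i 0)`), `0` for the other indices.  So the assertion holds for
`v s i = β i (x s i) (y s i)`, hence for all `v` (`K3P.Inv_span`; `TF K m` is spanned by the vectors
`fun i => β i (x i) (y i)`). -/
def St_Mix : Prop := ∀ (I : Type) [Fintype I] [DecidableEq I] (κ : I → Type) [∀ i, Fintype (κ i)]
  [∀ i, DecidableEq (κ i)] [∀ i, Nonempty (κ i)] (ϖ : ℂ) (P : ∀ i, PData (κ i) ϖ) (K : I → Type)
  [∀ i, Field (K i)] [∀ i, NumberField (K i)] (c : ∀ i, K i →+* K i) (m : I → ℕ)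
  (h : ∀ i, Matrix (Fin (m i)) (Fin (m i)) (K i))
  (t : ∀ i, Fin (m i) → K i → Module.End ℂ (κ i → ℂ)), ϖ ≠ 0 →
  (∀ i, MD (P i) (c i) (h i) (t i)) → ∀ k : I → ℕ, KillH P t (fun i => k i + 1) →
  ∀ (n p : ℕ) (F : MultilinearMap ℂ (fun _ : Fin n => TF K m)
    (MultilinearMap ℂ (fun _ : Fin (2 * p) => HW κ k) ℂ)),
  (∀ (y : Fin n → ∀ i, Fin (m i) → K i) (w : Fin (2 * p) → HW κ k), (∀ s, IsRatP k P (w s)) →
    ∃ q : ℚ, F (fun s => embF (y s)) w = ϖ ^ p * q) →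
  (∀ (v : Fin n → TF K m) (w : Fin (2 * p) → HW κ k), (∀ s i, DR (t i) (v s i)) →
    (∀ s i l j, IsAlgebraic ℚ (w s i l j)) → IsAlgebraic ℚ (F v w)) → InvH h t k F

/-- **INW** (from `St_Mix`).  PROOF.  `St_Mix` with `k = 0`, `p = 0` and the constant map with value `F v`
(`MultilinearMap.constOfIsEmpty`), for `M` skew take `Z ∈ bvS (t i)` with `ActM (t i) Z M`
(`exists_bvE`). -/
def St_Inw : Prop := ∀ (I : Type) [Fintype I] [DecidableEq I] (κ : I → Type) [∀ i, Fintype (κ i)]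
  [∀ i, DecidableEq (κ i)] [∀ i, Nonempty (κ i)] (ϖ : ℂ) (P : ∀ i, PData (κ i) ϖ) (K : I → Type)
  [∀ i, Field (K i)] [∀ i, NumberField (K i)] (c : ∀ i, K i →+* K i) (m : I → ℕ)
  (h : ∀ i, Matrix (Fin (m i)) (Fin (m i)) (K i))
  (t : ∀ i, Fin (m i) → K i → Module.End ℂ (κ i → ℂ)), ϖ ≠ 0 →
  (∀ i, MD (P i) (c i) (h i) (t i)) → KillH P t (fun _ => 1) →
  ∀ (n : ℕ) (F : MultilinearMap ℂ (fun _ : Fin n => TF K m) ℂ),
  (∀ y : Fin n → ∀ i, Fin (m i) → K i, ∃ q : ℚ, F (fun s => embF (y s)) = q) →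
  (∀ v : Fin n → TF K m, (∀ s i, DR (t i) (v s i)) → IsAlgebraic ℚ (F v)) → InvF h F

/-- **HOD.**  The operator of degree.  PROOF.  `hod A` (`Helper7`) is the projector with kernel `F^0`
(`hod_idem`, `hod_fil`).  `hod_eq` (`KSE.AVE`) gives `-hod A = -(1/2) + Z`,
`Z = (1 / (4 q)) • (x x' - x' x) ∈ bvS` (`tau_mem_bvS`); `exists_act_of_mem` gives `M`.  By `K3P.Inv_act`
`Z * opT y - opT y * Z = opT (Inv_op M y)`, so `opT (D y) = opT y * hod - hod * opT y` for `D = Inv_op M`, and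
`opT` is injective (`opT y = 0` implies `y = 0`: `St_Bet`, step (4), Clifford relations and `k3_nd`;
`g ≠ 0`).  With `P = hod`, `P² = P`: `opT (D (D y)) = P Y - 2 P Y P + Y P`, `opT (D (D (D y))) = Y P - P Y`,
`Y = opT y`.  So `D³ = D`.  If `y ∈ F^a`: `a ≥ 0`: `Y` maps `ker P` to `ker P`, `P Y (1 - P) = 0`, so
`D (D y) = D y`; `a ≥ 1` (take `b = -1` and `b = 0`): `P Y = 0` and `Y (1 - P) = 0`, so `D y = y`; `a ≥ 2`
(`b = -1`): `Y = 0`. -/
def St_Hod : Prop := ∀ (A : AbVar) (K : Type) [Field K] [NumberField K] (c : K →+* K) (m : ℕ)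
  (S : A.KugaSatakeMul K c m), A.g ≠ 0 → ∃ Z ∈ bvS (lt A S), ∃ M, ActM (lt A S) Z M ∧
    SkewM S.h M ∧ -hod A = (-(1 / 2 : ℂ)) • (1 : Module.End ℂ A.H1) + Z ∧
    (∀ y, Inv_op M (Inv_op M (Inv_op M y)) = Inv_op M y) ∧
    ∀ a y, S.IsFilT a y → FilD (Inv_op M) a y

/-- **HTY.**  PROOF.  `v s = v₁ + v₀ + v₋`, eigenvectors of `D` with the eigenvalues `1, 0, -1`:
`(D² y + D y) / 2`, `y - D² y`, `(D² y - D y) / 2`; if `v s ∈ F^(a s)`, the components with eigenvalue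
`< a s` vanish.  In the same way `w s = (w + D' w) + (- D' w)`, eigenvalues `0, -1`.  Expand `F v w`
(`MultilinearMap.map_sum`); for eigenvectors with eigenvalues `e s`, `f s` the hypothesis gives
`(∑ e s + ∑ f s) F v w = -p F v w`, and if all `e s ≥ a s`, `f s ≥ b s`, then `∑ e s + ∑ f s > -p`, so
`F v w = 0`. -/
def St_Hty : Prop := ∀ (V W : Type) [AddCommGroup V] [Module ℂ V] [AddCommGroup W] [Module ℂ W]
  (n p : ℕ) (D : Module.End ℂ V) (D' : Module.End ℂ W), (∀ y, D (D (D y)) = D y) →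
  (∀ w, D' (D' w) = -D' w) → ∀ (F : MultilinearMap ℂ (fun _ : Fin n => V)
    (MultilinearMap ℂ (fun _ : Fin (2 * p) => W) ℂ)),
  (∀ (v : Fin n → V) (w : Fin (2 * p) → W), ∑ s, F (Function.update v s (D (v s))) w +
    ∑ s, F v (Function.update w s (D' (w s))) = -(p : ℂ) * F v w) →
  ∀ (a : Fin n → ℤ) (b : Fin (2 * p) → ℤ) (v : Fin n → V) (w : Fin (2 * p) → W),
    -(p : ℤ) < ∑ s, a s + ∑ s, b s → (∀ s, FilD D (a s) (v s)) → (∀ s, FilD' D' (b s) (w s)) →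
    F v w = 0

/-- **HTF** (from `St_Kil`, `St_Mix`, `St_Hod`, `St_Hty`).  Clause (1) without `ℂ^r`.  PROOF.  `St_Hod` gives
`Z i`, `M i`; `D y = fun i => Inv_op (M i) (y i)`, `D' w = fun i l => -hod (A i) (w i l)`.  `St_Mix` for
`(Z i, M i)`, summed over `i`: `D y = ∑ i, Pi.single i (..)`, `-hod = -(1/2) + ∑ i, Pi.single i (Z i)`, and
the `2 p` terms `-(1/2)` give `-p`.  Then `St_Hty`.  (`mem_pData_Q`: `IsRatP` and `IsBetti`.) -/
def St_Htf : Prop := ∀ {I : Type} [Fintype I] [DecidableEq I] (A : I → AbVar) {K : I → Type}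
  [∀ i, Field (K i)] [∀ i, NumberField (K i)] {c : ∀ i, K i →+* K i} {m : I → ℕ}
  (S : ∀ i, (A i).KugaSatakeMul (K i) (c i) (m i)), (∀ i, (A i).g ≠ 0) → (∀ i, Adm (S i)) →
  (Subsingleton I ∨ ∀ i, c i = RingHom.id (K i) ∧ m i ≠ 4) →
  (∀ i j, i ≠ j → ∀ f, (A i).IsMor (A j) f → ∀ v, f v = 0) →
  ∀ (n : ℕ) (k : I → ℕ) (p : ℕ) (F : MultilinearMap ℂ (fun _ : Fin n => TF K m)
    (Form A k (2 * p))),
  (∀ (y : Fin n → ∀ i, Fin (m i) → K i) (w : Fin (2 * p) → H1 A k), (∀ s, IsBetti A k (w s)) →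
    ∃ q : ℚ, F (fun s => embF (y s)) w = (2 * Real.pi * Complex.I) ^ p * q) →
  (∀ (v : Fin n → TF K m) (w : Fin (2 * p) → H1 A k), (∀ s i, DR (lt (A i) (S i)) (v s i)) →
    (∀ s, IsDeRham A k (w s)) → IsAlgebraic ℚ (F v w)) →
  ∀ (a : Fin n → ℤ) (b : Fin (2 * p) → ℤ) (v : Fin n → TF K m) (w : Fin (2 * p) → H1 A k),
    -(p : ℤ) < ∑ s, a s + ∑ s, b s → (∀ s i, (S i).IsFilT (a s) (v s i)) →
    (∀ s i j, (A i).IsFilAt (b s) (w s i j)) → F v w = 0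

/-- **HTU.**  Coordinates `ℂ^r` for forms with values in a module `N`.  PROOF.  As `thm_Mxu`
(`Mxu_enum`, `Mxu_sum`, `Mxu_term` with `N` for `ℂ`): `F v` is the sum over `f : Fin n → Option (Fin r)` of
`F (fun s => Mxu_c (f s) (v s))`, and every term is a product of coordinates `(v s).1 (i b)` of the slots
with `f s = some _` and of the value of the form `G` in the `d` slots with `f s = none`, the other slots
being filled with the vectors `(e_i, 0)`. -/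
def St_Htu : Prop := ∀ (W N : Type) [AddCommGroup W] [Module ℂ W] [AddCommGroup N] [Module ℂ N]
  (r n : ℕ) (F : MultilinearMap ℂ (fun _ : Fin n => (Fin r → ℂ) × W) N)
  (v : Fin n → (Fin r → ℂ) × W),
  ∃ (J : Type) (_ : Fintype J) (d l : J → ℕ) (ε : ∀ j, Fin (d j) ⊕ Fin (l j) ≃ Fin n)
    (i : ∀ j, Fin (l j) → Fin r) (G : ∀ j, MultilinearMap ℂ (fun _ : Fin (d j) => W) N),
    (∀ j y, G j y = F fun s => Sum.elim (fun a => ((0 : Fin r → ℂ), y a))
      (fun b => (Pi.single (i j b) 1, 0)) ((ε j).symm s)) ∧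
    F v = ∑ j, (∏ b, (v (ε j (.inr b))).1 (i j b)) • G j fun a => (v (ε j (.inl a))).2

/-- **HUA** (from `St_Htf`, `St_Htu`).  Clause (1).  PROOF.  `St_Htu` for `F` and `v`.  In each term `j`: if
`0 < a s` for a slot `s = ε (inr b)`, the coordinate is zero; otherwise
`∑_{a} a (ε (inl a)) ≥ ∑ s, a s`, and `G j` satisfies the hypotheses of `St_Htf` (the vectors `(e_i, 0)`
are rational and de Rham: `0 = emb 0`, `DR (0)`), so `G j (..) w = 0`. -/
def St_Hua : Prop := ∀ {I : Type} [Fintype I] [DecidableEq I] (A : I → AbVar) {K : I → Type}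
  [∀ i, Field (K i)] [∀ i, NumberField (K i)] {c : ∀ i, K i →+* K i} {m : I → ℕ}
  (S : ∀ i, (A i).KugaSatakeMul (K i) (c i) (m i)), (∀ i, (A i).g ≠ 0) → (∀ i, Adm (S i)) →
  (Subsingleton I ∨ ∀ i, c i = RingHom.id (K i) ∧ m i ≠ 4) →
  (∀ i j, i ≠ j → ∀ f, (A i).IsMor (A j) f → ∀ v, f v = 0) →
  ∀ (r n : ℕ) (k : I → ℕ) (p : ℕ) (F : MultilinearMap ℂ (fun _ : Fin n => HU r K m)
    (Form A k (2 * p))), IsGrUA S r n k p F → IsHodgeUA S r n k p F

/-- **ASM** (from `St_Kil`, `St_Inw`, `St_Wrd`, `St_Dsu`, `St_Mxu`).  Clause (2).  PROOF.  As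
`K3P.asm`. -/
def St_Asm : Prop := ∀ {I : Type} [Fintype I] [DecidableEq I] (A : I → AbVar) {K : I → Type}
  [∀ i, Field (K i)] [∀ i, NumberField (K i)] {c : ∀ i, K i →+* K i} {m : I → ℕ}
  (S : ∀ i, (A i).KugaSatakeMul (K i) (c i) (m i)), (∀ i, (A i).g ≠ 0) → (∀ i, Adm (S i)) →
  (Subsingleton I ∨ ∀ i, c i = RingHom.id (K i) ∧ m i ≠ 4) →
  (∀ i j, i ≠ j → ∀ f, (A i).IsMor (A j) f → ∀ v, f v = 0) →
  ∀ (r n : ℕ) (F : MultilinearMap ℂ (fun _ : Fin n => HU r K m) ℂ),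
    IsGrU S r n F ↔ IsGenU c (fun i => (S i).h) r n F

end Pool.Agent.KTP
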