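import Pool.Agent.KTP.Mxu
import Pool.Agent.KTP.StH

/-!
# KTP [Htu]: coordinates for forms with values in a module
-/

set_option autoImplicit false

namespace Pool.Agent.KTP

section

variable {W N : Type} [AddCommGroup W] [Module ℂ W] [AddCommGroup N] [Module ℂ N] {r n d l : ℕ}

/-- The form on the slots with `none`. -/
noncomputable def Htu_G (ε : Fin d ⊕ Fin l ≃ Fin n) (i : Fin l → Fin r)
    (F : MultilinearMap ℂ (fun _ : Fin n => (Fin r → ℂ) × W) N) :
    MultilinearMap ℂ (fun _ : Fin d => W) N where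
  toFun y := F (Mxu_W ε i y)
  map_update_add' y a u u' := by
    rw [Mxu_W_update, Mxu_W_update, Mxu_W_update]
    have h : ((0, u + u') : (Fin r → ℂ) × W) = (0, u) + (0, u') := by
      rw [Prod.mk_add_mk, add_zero]
    rw [h, F.map_update_add]
  map_update_smul' y a c u := by
    rw [Mxu_W_update, Mxu_W_update]
    have h : ((0, c • u) : (Fin r → ℂ) × W) = c • ((0, u) : (Fin r → ℂ) × W) := by
      rw [Prod.smul_mk, smul_zero]
    rw [h, F.map_update_smul]

theorem Htu_term (ε : Fin d ⊕ Fin l ≃ Fin n) (i : Fin l → Fin r)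
    (F : MultilinearMap ℂ (fun _ : Fin n => (Fin r → ℂ) × W) N) (f : Fin n → Option (Fin r))
    (h1 : ∀ a, f (ε (.inl a)) = none) (h2 : ∀ b, f (ε (.inr b)) = some (i b))
    (v : Fin n → (Fin r → ℂ) × W) :
    F (fun s => Mxu_c (f s) (v s)) =
      (∏ b, (v (ε (.inr b))).1 (i b)) • Htu_G ε i F (fun a => (v (ε (.inl a))).2) := by
  obtain ⟨c, hc⟩ : ∃ c : Fin n → ℂ, c = fun s => Sum.elim (fun _ : Fin d => (1 : ℂ))
    (fun b => (v (ε (.inr b))).1 (i b)) (ε.symm s) := ⟨_, rfl⟩
  have hcl : ∀ a, c (ε (.inl a)) = 1 := by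
    intro a
    rw [hc]
    simp
  have hcr : ∀ b, c (ε (.inr b)) = (v (ε (.inr b))).1 (i b) := by
    intro b
    rw [hc]
    simp
  have h3 : (fun s => Mxu_c (f s) (v s)) =
      fun s => c s • Mxu_W ε i (fun a => (v (ε (.inl a))).2) s := by
    funext s
    obtain ⟨t, rfl⟩ := ε.surjective s
    rcases t with b | b
    · rw [h1, Mxu_W_inl, hcl, one_smul]
      rfl
    · rw [h2, Mxu_W_inr, hcr]
      rfl
  have h4 : (∏ s, c s) = ∏ b, (v (ε (.inr b))).1 (i b) := by
    rw [← Equiv.prod_comp ε, Fintype.prod_sum_type]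
    rw [Finset.prod_congr rfl fun a _ => hcl a, Finset.prod_congr rfl fun b _ => hcr b,
      Finset.prod_const_one, one_mul]
  rw [h3, F.map_smul_univ, h4]
  rfl

end

theorem thm_Htu : St_Htu := by
  intro W N _ _ _ _ r n F v
  choose d l ε i h1 h2 using fun f : Fin n → Option (Fin r) => Mxu_enum f
  refine ⟨Fin n → Option (Fin r), inferInstance, d, l, ε, i, fun f => Htu_G (ε f) (i f) F,
    fun j y => rfl, ?_⟩
  have h3 := F.map_sum (fun s o => Mxu_c o (v s))
  have h4 : (fun s => ∑ o : Option (Fin r), Mxu_c o (v s)) = v := by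
    funext s
    exact (Mxu_sum (v s)).symm
  rw [h4] at h3
  rw [h3]
  refine Finset.sum_congr rfl fun f _ => ?_
  exact Htu_term (ε f) (i f) F f (h1 f) (h2 f) v

end Pool.Agent.KTP
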