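import Pool.Agent.KTP.StH

/-!
# KTP [Hty]: the vanishing of forms by degrees
-/

set_option autoImplicit false

namespace Pool.Agent.KTP

/-- an eigenvector with the eigenvalue `e` which is zero if `e < a` -/
def Hty_E {V : Type} [AddCommGroup V] [Module ℂ V] (D : Module.End ℂ V) (a e : ℤ) (y : V) :
    Prop := D y = (e : ℂ) • y ∧ (e < a → y = 0)

lemma Hty_dec {V : Type} [AddCommGroup V] [Module ℂ V] (D : Module.End ℂ V)
    (hD : ∀ y, D (D (D y)) = D y) (a : ℤ) (y : V) (hy : FilD D a y) :
    ∃ z : Fin 3 → V, (∀ j : Fin 3, Hty_E D a (((j : ℕ) : ℤ) - 1) (z j)) ∧ y = ∑ j, z j := by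
  obtain ⟨h0, h1, h2⟩ := hy
  refine ⟨![(1 / 2 : ℂ) • (D (D y) - D y), y - D (D y), (1 / 2 : ℂ) • (D (D y) + D y)], ?_, ?_⟩
  · intro j
    fin_cases j
    · constructor
      · show D ((1 / 2 : ℂ) • (D (D y) - D y)) = ((((0 : ℕ) : ℤ) - 1 : ℤ) : ℂ) •
          ((1 / 2 : ℂ) • (D (D y) - D y))
        rw [map_smul, map_sub, hD]
        push_cast
        module
      · intro ha
        have ha : (0 : ℤ) ≤ a := by
          simp at ha
          omega
        show (1 / 2 : ℂ) • (D (D y) - D y) = 0
        rw [h0 ha, sub_self, smul_zero]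
    · constructor
      · show D (y - D (D y)) = ((((1 : ℕ) : ℤ) - 1 : ℤ) : ℂ) • (y - D (D y))
        rw [map_sub, hD, sub_self]
        push_cast
        module
      · intro ha
        have ha : (0 : ℤ) < a := by
          simp at ha
          omega
        show y - D (D y) = 0
        rw [h1 ha, h1 ha, sub_self]
    · constructor
      · show D ((1 / 2 : ℂ) • (D (D y) + D y)) = ((((2 : ℕ) : ℤ) - 1 : ℤ) : ℂ) •
          ((1 / 2 : ℂ) • (D (D y) + D y))
        rw [map_smul, map_add, hD]
        push_cast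
        module
      · intro ha
        have ha : (1 : ℤ) < a := by
          simp at ha
          omega
        show (1 / 2 : ℂ) • (D (D y) + D y) = 0
        rw [h2 ha, map_zero, map_zero, add_zero, smul_zero]
  · rw [Fin.sum_univ_three]
    show y = (1 / 2 : ℂ) • (D (D y) - D y) + (y - D (D y)) + (1 / 2 : ℂ) • (D (D y) + D y)
    module

lemma Hty_dec' {W : Type} [AddCommGroup W] [Module ℂ W] (D : Module.End ℂ W)
    (hD : ∀ y, D (D y) = -D y) (a : ℤ) (y : W) (hy : FilD' D a y) :
    ∃ z : Fin 2 → W, (∀ j : Fin 2, Hty_E D a (((j : ℕ) : ℤ) - 1) (z j)) ∧ y = ∑ j, z j := by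
  obtain ⟨h0, h1⟩ := hy
  refine ⟨![- D y, y + D y], ?_, ?_⟩
  · intro j
    fin_cases j
    · constructor
      · show D (- D y) = ((((0 : ℕ) : ℤ) - 1 : ℤ) : ℂ) • (- D y)
        rw [map_neg, hD]
        push_cast
        module
      · intro ha
        have ha : (0 : ℤ) ≤ a := by
          simp at ha
          omega
        show - D y = 0
        rw [h0 ha, neg_zero]
    · constructor
      · show D (y + D y) = ((((1 : ℕ) : ℤ) - 1 : ℤ) : ℂ) • (y + D y)
        rw [map_add, hD]
        push_cast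
        module
      · intro ha
        have ha : (0 : ℤ) < a := by
          simp at ha
          omega
        show y + D y = 0
        rw [h1 ha, map_zero, add_zero]
  · rw [Fin.sum_univ_two]
    show y = - D y + (y + D y)
    abel

theorem thm_Hty : St_Hty := by
  intro V W _ _ _ _ n p D D' hD hD' F hF a b v w hab hv hw
  choose z hz hzv using fun s => Hty_dec D hD (a s) (v s) (hv s)
  choose x hx hxw using fun s => Hty_dec' D' hD' (b s) (w s) (hw s)
  have ev : v = fun s => ∑ j, z s j := funext hzv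
  have ew : w = fun s => ∑ j, x s j := funext hxw
  rw [ev, F.map_sum, MultilinearMap.sum_apply]
  refine Finset.sum_eq_zero fun f _ => ?_
  rw [ew, MultilinearMap.map_sum]
  refine Finset.sum_eq_zero fun g _ => ?_
  -- the eigenvalues
  by_cases h1 : (∀ s, a s ≤ ((((f s : ℕ)) : ℤ) - 1)) ∧ ∀ s, b s ≤ ((((g s : ℕ)) : ℤ) - 1)
  · have h2 := hF (fun s => z s (f s)) fun s => x s (g s)
    have e1 : ∀ s, F (Function.update (fun s => z s (f s)) s (D (z s (f s)))) (fun s => x s (g s)) =
        ((((((f s : ℕ)) : ℤ) - 1 : ℤ)) : ℂ) * F (fun s => z s (f s)) fun s => x s (g s) := by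
      intro s
      rw [(hz s (f s)).1, MultilinearMap.map_update_smul, Function.update_eq_self,
        MultilinearMap.smul_apply, smul_eq_mul]
    have e2 : ∀ s, F (fun s => z s (f s)) (Function.update (fun s => x s (g s)) s
        (D' (x s (g s)))) = ((((((g s : ℕ)) : ℤ) - 1 : ℤ)) : ℂ) * F (fun s => z s (f s))
          fun s => x s (g s) := by
      intro s
      rw [(hx s (g s)).1, MultilinearMap.map_update_smul, Function.update_eq_self, smul_eq_mul]
    rw [Finset.sum_congr rfl fun s _ => e1 s, Finset.sum_congr rfl fun s _ => e2 s,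
      ← Finset.sum_mul, ← Finset.sum_mul, ← add_mul] at h2
    have h3 : ((((∑ s, ((((f s : ℕ)) : ℤ) - 1)) + (∑ s, ((((g s : ℕ)) : ℤ) - 1)) + (p : ℤ) : ℤ)) : ℂ) *
        F (fun s => z s (f s)) (fun s => x s (g s)) = 0 := by
      push_cast at h2 ⊢
      linear_combination h2
    rcases mul_eq_zero.mp h3 with h4 | h4
    · exfalso
      have h5 : (∑ s, ((((f s : ℕ)) : ℤ) - 1)) + (∑ s, ((((g s : ℕ)) : ℤ) - 1)) + (p : ℤ) = 0 := by
        exact_mod_cast h4
      have h6 : ∑ s, a s ≤ ∑ s, ((((f s : ℕ)) : ℤ) - 1) := Finset.sum_le_sum fun s _ => h1.1 s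
      have h7 : ∑ s, b s ≤ ∑ s, ((((g s : ℕ)) : ℤ) - 1) := Finset.sum_le_sum fun s _ => h1.2 s
      omega
    · exact h4
  · rw [not_and_or] at h1
    rcases h1 with h1 | h1
    · push Not at h1
      obtain ⟨s, hs⟩ := h1
      have h2 := (hz s (f s)).2 hs
      rw [MultilinearMap.map_coord_zero (m := fun s => z s (f s)) F s h2,
        MultilinearMap.zero_apply]
    · push Not at h1
      obtain ⟨s, hs⟩ := h1
      have h2 := (hx s (g s)).2 hs
      exact MultilinearMap.map_coord_zero _ s h2

end Pool.Agent.KTP
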