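import Pool.Agent.KTP.StH
import Pool.Agent.K3P.Inv

/-!
# KTP [Inw]: Grothendieck forms in the variables `T_i` are invariant
-/

set_option autoImplicit false

namespace Pool.Agent.KTP

open Module Matrix NumberField Pool.Agent.Helper7 Pool.Agent.KS Pool.Agent.Ball Pool.Agent.KSE
  Pool.Agent.Helper28.GPC Pool.Agent.KSR Pool.Agent.K3P

/-- a number as a form without variables -/
def Inw_c (W : Type) [AddCommGroup W] [Module ℂ W] :
    ℂ →ₗ[ℂ] MultilinearMap ℂ (fun _ : Fin (2 * 0) => W) ℂ where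
  toFun x :=
    { toFun := fun _ => x
      map_update_add' := fun _ i => Fin.elim0 i
      map_update_smul' := fun _ i => Fin.elim0 i }
  map_add' _ _ := rfl
  map_smul' _ _ := rfl

lemma Inw_c_apply (W : Type) [AddCommGroup W] [Module ℂ W] (x : ℂ) (w : Fin (2 * 0) → W) :
    Inw_c W x w = x := rfl

theorem thm_Inw (hMix : St_Mix) : St_Inw := by
  intro I _ _ κ _ _ _ ϖ P K _ _ c m h t hϖ S hK n F hQ hA i M hM v
  obtain ⟨Z, hZ, hZM⟩ := exists_bvE (S i).conj (S i).herm (S i).nd (S i).cliff M hM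
  have h1 := hMix I κ ϖ P K c m h t hϖ S (fun _ => 0) hK n 0
    ((Inw_c (HW κ fun _ => 0)).compMultilinearMap F) ?_ ?_ i Z hZ M hZM hM v (fun s => Fin.elim0 s)
  · have h2 : IsEmpty (Fin (2 * 0)) := inferInstanceAs (IsEmpty (Fin 0))
    rw [Finset.univ_eq_empty (α := Fin (2 * 0)), Finset.sum_empty, add_zero] at h1
    exact h1
  · intro y w _
    obtain ⟨q, hq⟩ := hQ y
    exact ⟨q, by rw [pow_zero, one_mul]; exact hq⟩
  · intro v w hv _
    exact hA v hv

end Pool.Agent.KTP
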