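import Pool.Agent.KTP.MixA
import Pool.Agent.KTP.StH

/-!
# KTP [Mix]: forms with variables in `T_i` and in `H_1(A_i)`
-/

set_option autoImplicit false
set_option linter.unusedSectionVars false

namespace Pool.Agent.KTP

open Module Matrix NumberField Pool.Agent.Helper7 Pool.Agent.KS Pool.Agent.Ball Pool.Agent.KSE
  Pool.Agent.K3P
open Pool.Agent.GPC (TC)

section

variable {I : Type} {κ : I → Type} {K : I → Type} [∀ i, Field (K i)] [∀ i, NumberField (K i)]
  {m : I → ℕ} {k : I → ℕ}

/-- the vectors in the `T_i` of two vectors -/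
noncomputable def Mix_be (k : I → ℕ) (β : ∀ i, (κ i → ℂ) →ₗ[ℂ] (κ i → ℂ) →ₗ[ℂ] TC (K i) (m i)) :
    HW κ (fun i => k i + 1) →ₗ[ℂ] HW κ (fun i => k i + 1) →ₗ[ℂ] TF K m :=
  LinearMap.mk₂ ℂ (fun u v i => β i (u i 0) (v i 0))
    (fun u u' v => by
      funext i
      show β i (u i 0 + u' i 0) (v i 0) = β i (u i 0) (v i 0) + β i (u' i 0) (v i 0)
      rw [map_add, LinearMap.add_apply])
    (fun r u v => by
      funext i
      show β i (r • u i 0) (v i 0) = r • β i (u i 0) (v i 0)
      rw [map_smul, LinearMap.smul_apply])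
    (fun u v v' => by
      funext i
      show β i (u i 0) (v i 0 + v' i 0) = β i (u i 0) (v i 0) + β i (u i 0) (v' i 0)
      rw [map_add])
    (fun r u v => by
      funext i
      show β i (u i 0) (r • v i 0) = r • β i (u i 0) (v i 0)
      rw [map_smul])

lemma Mix_be_apply (β : ∀ i, (κ i → ℂ) →ₗ[ℂ] (κ i → ℂ) →ₗ[ℂ] TC (K i) (m i))
    (u v : HW κ (fun i => k i + 1)) (i : I) : Mix_be k β u v i = β i (u i 0) (v i 0) := rfl

/-- the other components -/
def Mix_pi (κ : I → Type) (k : I → ℕ) : HW κ (fun i => k i + 1) →ₗ[ℂ] HW κ k where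
  toFun u := fun i l => u i l.succ
  map_add' _ _ := rfl
  map_smul' _ _ := rfl

/-- one component -/
def Mix_pr (κ : I → Type) (k : I → ℕ) (i : I) : HW κ (fun i => k i + 1) →ₗ[ℂ] (κ i → ℂ) where
  toFun u := u i 0
  map_add' _ _ := rfl
  map_smul' _ _ := rfl

/-- the value at a family of vectors -/
def Mix_ev {W : Type} [AddCommGroup W] [Module ℂ W] {q : ℕ} (w : Fin q → W) :
    MultilinearMap ℂ (fun _ : Fin q => W) ℂ →ₗ[ℂ] ℂ where
  toFun α := α w
  map_add' _ _ := rfl
  map_smul' _ _ := rfl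

/-- the action on the vectors of one `T_i` -/
noncomputable def Mix_L [DecidableEq I] (i : I)
    (M : (K i →+* ℂ) → Matrix (Fin (m i)) (Fin (m i)) ℂ) : Module.End ℂ (TF K m) where
  toFun y := Pi.single i (Inv_op M (y i))
  map_add' y y' := by
    rw [Pi.add_apply, map_add, Pi.single_add]
  map_smul' r y := by
    rw [Pi.smul_apply, map_smul, Pi.single_smul]
    rfl

lemma Mix_span [Fintype I] [DecidableEq I]
    (β : ∀ i, (κ i → ℂ) →ₗ[ℂ] (κ i → ℂ) →ₗ[ℂ] TC (K i) (m i))
    (hβ : ∀ i, Submodule.span ℂ {w | ∃ u v, w = β i u v} = ⊤) :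
    Submodule.span ℂ {y : TF K m | ∃ u v : ∀ i, κ i → ℂ, y = fun i => β i (u i) (v i)} = ⊤ := by
  rw [eq_top_iff]
  intro y _
  have h1 : y = ∑ i, Pi.single i (y i) := (Finset.univ_sum_single y).symm
  rw [h1]
  refine Submodule.sum_mem _ fun i _ => ?_
  have h2 : ∀ x ∈ Submodule.span ℂ {w | ∃ u v, w = β i u v}, (Pi.single i x : TF K m) ∈
      Submodule.span ℂ {y : TF K m | ∃ u v : ∀ i, κ i → ℂ, y = fun i => β i (u i) (v i)} := by
    intro x hx
    induction hx using Submodule.span_induction with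
    | mem x hx =>
      obtain ⟨u, v, rfl⟩ := hx
      refine Submodule.subset_span ⟨Pi.single i u, Pi.single i v, ?_⟩
      funext j
      by_cases hj : j = i
      · subst hj
        rw [Pi.single_eq_same, Pi.single_eq_same, Pi.single_eq_same]
      · rw [Pi.single_eq_of_ne hj, Pi.single_eq_of_ne hj, map_zero, LinearMap.zero_apply]
    | zero =>
      rw [Pi.single_zero]
      exact Submodule.zero_mem _
    | add x y _ _ hx hy =>
      rw [Pi.single_add]
      exact Submodule.add_mem _ hx hy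
    | smul r x _ hx =>
      rw [Pi.single_smul]
      exact Submodule.smul_mem _ r hx
  exact h2 _ (by rw [hβ i]; exact Submodule.mem_top)

end

theorem thm_Mix (hB : St_Bet) : St_Mix := by
  intro I _ _ κ _ _ _ ϖ P K _ _ c m h t hϖ S k hK n p F hQ hA i₀ Z hZ M hZM hM v w
  choose β hβ hβQ hβA hβS using fun i => hB (κ i) ϖ (P i) (K i) (c i) (m i) (h i) (t i) hϖ (S i)
  obtain ⟨e⟩ : Nonempty ((Fin 2 × Fin n) ⊕ Fin (2 * p) ≃ Fin (2 * (n + p))) := by
    refine ⟨Fintype.equivFinOfCardEq ?_⟩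
    rw [Fintype.card_sum, Fintype.card_prod, Fintype.card_fin, Fintype.card_fin, Fintype.card_fin,
      mul_add]
  -- the form `ψ`
  have hψ : ∀ u v, (P i₀).ψ (Z u) v + (P i₀).ψ u (Z v) = 0 := by
    intro u v
    have h1 := hK 1 ((Inv_two (P i₀).ψ).compLinearMap fun _ => Mix_pr κ k i₀) ?_ ?_ i₀ Z hZ
    · have h2 := congrArg (fun G => G (![Pi.single i₀ fun _ => u, Pi.single i₀ fun _ => v] :
        Fin 2 → HW κ (fun i => k i + 1))) h1
      have h3 : actForm (lift (fun i => k i + 1) (Pi.single i₀ Z))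
          ((Inv_two (P i₀).ψ).compLinearMap fun _ => Mix_pr κ k i₀)
          (![Pi.single i₀ fun _ => u, Pi.single i₀ fun _ => v] :
            Fin 2 → HW κ (fun i => k i + 1)) = 0 := h2
      rw [actForm_apply, Fin.sum_univ_two, MultilinearMap.compLinearMap_apply,
        MultilinearMap.compLinearMap_apply, Inv_two_apply, Inv_two_apply] at h3
      simpa [Mix_pr, lift_apply] using h3
    · intro w hw
      obtain ⟨q, hq⟩ := (P i₀).hψQ _ (hw 0 i₀ 0) _ (hw 1 i₀ 0)
      exact ⟨q, by rw [pow_one]; exact hq⟩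
    · intro w hw
      exact psi_alg (P i₀).ψ (P i₀).hψalg _ _ (hw 0 i₀ 0) (hw 1 i₀ 0)
  have hL : ∀ u v, Mix_be k β (lift (fun i => k i + 1) (Pi.single i₀ Z) u) v +
      Mix_be k β u (lift (fun i => k i + 1) (Pi.single i₀ Z) v) =
      Mix_L i₀ M (Mix_be k β u v) := by
    intro u v
    funext i
    show β i ((Pi.single i₀ Z : (i : I) → Module.End ℂ (κ i → ℂ)) i (u i 0)) (v i 0) +
      β i (u i 0) ((Pi.single i₀ Z : (i : I) → Module.End ℂ (κ i → ℂ)) i (v i 0)) =
      (Pi.single i₀ (Inv_op M (β i₀ (u i₀ 0) (v i₀ 0))) : TF K m) i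
    by_cases hi : i = i₀
    · subst hi
      rw [Pi.single_eq_same, Pi.single_eq_same]
      exact Inv_beta hZM hM (S i).nd (P i).ψ (β i) (hβ i) hψ _ _
    · rw [Pi.single_eq_of_ne hi, Pi.single_eq_of_ne hi, LinearMap.zero_apply,
        LinearMap.zero_apply, map_zero, map_zero, LinearMap.zero_apply, add_zero]
  have h1 := hK (n + p) (MixA_al e (Mix_be k β) (Mix_pi κ k) F) ?_ ?_ i₀ Z hZ
  · have h2 : actForm (Mix_L i₀ M) ((Mix_ev w).compMultilinearMap F) +
        ∑ s, (Mix_ev (Function.update w s (lift k (Pi.single i₀ Z) (w s)))).compMultilinearMap F =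
        0 := by
      refine Inv_span _ _ (Mix_span β hβS) ?_
      intro v hv
      choose u u' hu using hv
      obtain ⟨W, hW0, hW1, hWr⟩ : ∃ W : Fin (2 * (n + p)) → HW κ (fun i => k i + 1),
          (∀ s i, W (e (.inl (0, s))) i 0 = u s i) ∧ (∀ s i, W (e (.inl (1, s))) i 0 = u' s i) ∧
          ∀ s i l, W (e (.inr s)) i l.succ = w s i l := by
        refine ⟨fun r => Sum.elim (fun t : Fin 2 × Fin n => fun i => (Fin.cons
          (if t.1 = 0 then u t.2 i else u' t.2 i) (fun _ => 0) : Fin (k i + 1) → κ i → ℂ))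
          (fun s i => (Fin.cons 0 (w s i) : Fin (k i + 1) → κ i → ℂ)) (e.symm r), ?_, ?_, ?_⟩
        · intro s i
          simp only [Equiv.symm_apply_apply, Sum.elim_inl, Fin.cons_zero, if_pos]
        · intro s i
          simp only [Equiv.symm_apply_apply, Sum.elim_inl, Fin.cons_zero, one_ne_zero, if_false]
        · intro s i l
          simp only [Equiv.symm_apply_apply, Sum.elim_inr, Fin.cons_succ]
      have h3 := MixA_act e (Mix_be k β) (Mix_pi κ k) F _ (lift k (Pi.single i₀ Z))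
        (Mix_L i₀ M) hL (fun u => rfl) W
      rw [h1] at h3
      have e1 : MixA_v e (Mix_be k β) W = v := by
        funext s i
        unfold MixA_v
        rw [Mix_be_apply, hW0, hW1, hu s]
      have e2 : MixA_w e (Mix_pi κ k) W = w := by
        funext s i l
        exact hWr s i l
      rw [e1, e2] at h3
      rw [_root_.add_apply, _root_.sum_apply, actForm_apply]
      exact h3.symm
    have h3 : (actForm (Mix_L i₀ M) ((Mix_ev w).compMultilinearMap F) +
        ∑ s, (Mix_ev (Function.update w s (lift k (Pi.single i₀ Z) (w s)))).compMultilinearMap F)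
        v = 0 := by
      rw [h2]
      rfl
    rw [_root_.add_apply, _root_.sum_apply, actForm_apply] at h3
    exact h3
  · intro u hu
    choose y hy using fun (s : Fin n) (i : I) => hβQ i _ (hu (e (.inl (0, s))) i 0) _
      (hu (e (.inl (1, s))) i 0)
    obtain ⟨q, hq⟩ := hQ y (MixA_w e (Mix_pi κ k) u) (fun s i l => hu (e (.inr s)) i l.succ)
    refine ⟨q, ?_⟩
    rw [MixA_al_apply]
    have e1 : MixA_v e (Mix_be k β) u = fun s => ϖ • embF (y s) := by
      funext s i
      exact hy s i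
    rw [e1, MultilinearMap.map_smul_univ F (fun _ => ϖ) fun r => embF (y r), Finset.prod_const,
      Finset.card_univ, Fintype.card_fin, _root_.smul_apply, hq, smul_eq_mul, pow_add]
    ring
  · intro u hu
    exact hA _ _ (fun s i => hβA i _ _ (hu _ i 0) (hu _ i 0)) fun s i l => hu _ i l.succ

end Pool.Agent.KTP
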