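import Pool.Agent.KTP.St
import Pool.Agent.K3P.Dsd

/-!
# KTP [Mlt]: the basic functions are multilinear and rational
-/

set_option autoImplicit false
set_option linter.unusedSectionVars false

namespace Pool.Agent.KTP

open Module Matrix NumberField Pool.Agent.Helper7 Pool.Agent.KS Pool.Agent.Ball Pool.Agent.KSE
  Pool.Agent.K3P
open Pool.Agent.GPC (AbVar TC IsRatT qf df HX HU IsGrU IsBasicU IsGenU)

section

variable {I : Type} [Fintype I] [DecidableEq I] {K : I → Type} [∀ i, Field (K i)]
  [∀ i, NumberField (K i)] {m : I → ℕ} {d l l₁ : ℕ} (h : ∀ i, Matrix (Fin (m i)) (Fin (m i)) (K i))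
  {i : Fin l → I} {j : Fin l₁ → I} (z : ∀ b, K (i b)) (z₁ : ∀ b, K (j b))
  (e : (Fin l × Fin 2) ⊕ (Σ b : Fin l₁, Fin (m (j b))) ≃ Fin d)

/-- the products -/
noncomputable def Mlt_P (v : Fin d → TF K m) : ℂ :=
  (∏ b, qz (h (i b)) (z b) (v (e (.inl (b, 0))) (i b)) (v (e (.inl (b, 1))) (i b))) *
    ∏ b, df (z₁ b) fun k => v (e (.inr ⟨b, k⟩)) (j b)

/-- the value at a slot -/
lemma Mlt_update (v : Fin d → TF K m) (r : Fin d) :
    ∃ (C : ℂ) (f : TF K m → ℂ), (∀ x y, f (x + y) = f x + f y) ∧ (∀ (a : ℂ) x, f (a • x) = a * f x) ∧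
      ∀ x, Mlt_P h z z₁ e (Function.update v r x) = C * f x := by
  classical
  obtain ⟨⟨a₀, i₀⟩ | ⟨b₀, j₀⟩, rfl⟩ := e.surjective r
  · refine ⟨(∏ a ∈ Finset.univ.erase a₀,
          qz (h (i a)) (z a) (v (e (.inl (a, 0))) (i a)) (v (e (.inl (a, 1))) (i a))) *
        ∏ b, df (z₁ b) fun k => v (e (.inr ⟨b, k⟩)) (j b),
      fun x => if i₀ = 0 then qz (h (i a₀)) (z a₀) (x (i a₀)) (v (e (.inl (a₀, 1))) (i a₀)) else
        qz (h (i a₀)) (z a₀) (v (e (.inl (a₀, 0))) (i a₀)) (x (i a₀)), ?_, ?_, ?_⟩
    · intro x y
      dsimp only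
      split_ifs
      · exact Dsc_qz_add_left _ _ _ _ _
      · exact Dsc_qz_add_right _ _ _ _ _
    · intro a x
      dsimp only
      split_ifs
      · exact Dsc_qz_smul_left _ _ _ _ _
      · exact Dsc_qz_smul_right _ _ _ _ _
    · intro x
      have h1 : (∏ b, df (z₁ b) fun k =>
            Function.update v (e (.inl (a₀, i₀))) x (e (.inr ⟨b, k⟩)) (j b)) =
          ∏ b, df (z₁ b) fun k => v (e (.inr ⟨b, k⟩)) (j b) := by
        refine Finset.prod_congr rfl fun b _ => ?_
        congr 1
        funext k
        rw [Function.update_of_ne]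
        intro h'
        exact absurd (e.injective h') (by simp)
      have h2 : (∏ a, qz (h (i a)) (z a)
            (Function.update v (e (.inl (a₀, i₀))) x (e (.inl (a, 0))) (i a))
            (Function.update v (e (.inl (a₀, i₀))) x (e (.inl (a, 1))) (i a))) =
          (∏ a ∈ Finset.univ.erase a₀,
            qz (h (i a)) (z a) (v (e (.inl (a, 0))) (i a)) (v (e (.inl (a, 1))) (i a))) *
          (if i₀ = 0 then qz (h (i a₀)) (z a₀) (x (i a₀)) (v (e (.inl (a₀, 1))) (i a₀)) else
            qz (h (i a₀)) (z a₀) (v (e (.inl (a₀, 0))) (i a₀)) (x (i a₀))) := by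
        rw [← Finset.prod_erase_mul _ _ (Finset.mem_univ a₀)]
        congr 1
        · refine Finset.prod_congr rfl fun a ha => ?_
          have ha' : a ≠ a₀ := (Finset.mem_erase.1 ha).1
          rw [Function.update_of_ne, Function.update_of_ne]
          · intro h'
            have := e.injective h'
            simp only [Sum.inl.injEq, Prod.mk.injEq] at this
            exact ha' this.1
          · intro h'
            have := e.injective h'
            simp only [Sum.inl.injEq, Prod.mk.injEq] at this
            exact ha' this.1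
        · by_cases hi : i₀ = 0
          · subst hi
            rw [if_pos rfl, Function.update_self, Function.update_of_ne]
            intro h'
            have := e.injective h'
            simp at this
          · have hi' : i₀ = 1 := by omega
            subst hi'
            rw [if_neg hi, Function.update_self, Function.update_of_ne]
            intro h'
            have := e.injective h'
            simp at this
      unfold Mlt_P
      rw [h1, h2]
      ring
  · refine ⟨(∏ a, qz (h (i a)) (z a) (v (e (.inl (a, 0))) (i a)) (v (e (.inl (a, 1))) (i a))) *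
        ∏ b ∈ Finset.univ.erase b₀, df (z₁ b) fun k => v (e (.inr ⟨b, k⟩)) (j b),
      fun x => df (z₁ b₀) (Function.update (fun k => v (e (.inr ⟨b₀, k⟩)) (j b₀)) j₀ (x (j b₀))),
      ?_, ?_, ?_⟩
    · intro x y
      exact Dsd_df_add _ _ _ _ _
    · intro a x
      exact Dsd_df_smul _ _ _ _ _
    · intro x
      have h1 : (∏ a, qz (h (i a)) (z a)
            (Function.update v (e (.inr ⟨b₀, j₀⟩)) x (e (.inl (a, 0))) (i a))
            (Function.update v (e (.inr ⟨b₀, j₀⟩)) x (e (.inl (a, 1))) (i a))) =
          ∏ a, qz (h (i a)) (z a) (v (e (.inl (a, 0))) (i a)) (v (e (.inl (a, 1))) (i a)) := by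
        refine Finset.prod_congr rfl fun a _ => ?_
        rw [Function.update_of_ne, Function.update_of_ne]
        · intro h'
          exact absurd (e.injective h') (by simp)
        · intro h'
          exact absurd (e.injective h') (by simp)
      have h2 : (∏ b, df (z₁ b) fun k =>
            Function.update v (e (.inr ⟨b₀, j₀⟩)) x (e (.inr ⟨b, k⟩)) (j b)) =
          (∏ b ∈ Finset.univ.erase b₀, df (z₁ b) fun k => v (e (.inr ⟨b, k⟩)) (j b)) *
          df (z₁ b₀) (Function.update (fun k => v (e (.inr ⟨b₀, k⟩)) (j b₀)) j₀ (x (j b₀))) := by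
        rw [← Finset.prod_erase_mul _ _ (Finset.mem_univ b₀)]
        congr 1
        · refine Finset.prod_congr rfl fun b hb => ?_
          have hb' : b ≠ b₀ := (Finset.mem_erase.1 hb).1
          congr 1
          funext k
          rw [Function.update_of_ne]
          intro h'
          have h3 := e.injective h'
          simp only [Sum.inr.injEq] at h3
          exact hb' (congrArg Sigma.fst h3)
        · congr 1
          funext k
          by_cases hk : k = j₀
          · subst hk
            rw [Function.update_self, Function.update_self]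
          · rw [Function.update_of_ne, Function.update_of_ne hk]
            intro h'
            have h3 := e.injective h'
            simp only [Sum.inr.injEq, Sigma.mk.injEq, heq_eq_eq, true_and] at h3
            exact hk h3
      unfold Mlt_P
      rw [h1, h2]
      ring

/-- the products as multilinear forms -/
noncomputable def Mlt_M : MultilinearMap ℂ (fun _ : Fin d => TF K m) ℂ where
  toFun v := Mlt_P h z z₁ e v
  map_update_add' := by
    intro inst v r x y
    have hi : inst = instDecidableEqFin d := Subsingleton.elim _ _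
    subst hi
    obtain ⟨C, f, h1, h2, h3⟩ := Mlt_update h z z₁ e v r
    rw [h3, h3, h3, h1, mul_add]
  map_update_smul' := by
    intro inst v r a x
    have hi : inst = instDecidableEqFin d := Subsingleton.elim _ _
    subst hi
    obtain ⟨C, f, h1, h2, h3⟩ := Mlt_update h z z₁ e v r
    rw [h3, h3, h2, smul_eq_mul]
    ring

end

theorem thm_Mlt : St_Mlt := by
  intro I _ _ K _ _ c m h d hconj ω hω
  obtain ⟨l, l₁, i, j, z, z₁, e, hc, hv⟩ := hω
  refine ⟨⟨Mlt_M h z z₁ e, fun v => hv v⟩, fun y => ?_⟩
  refine ⟨(∏ b, Algebra.trace ℚ (K (i b)) (z b * ∑ a, ∑ a', y (e (.inl (b, 0))) (i b) a *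
    (h (i b) a a' * c (i b) (y (e (.inl (b, 1))) (i b) a')))) *
    ∏ b, Algebra.trace ℚ (K (j b)) (z₁ b *
      (Matrix.of fun k => y (e (.inr ⟨b, k⟩)) (j b)).det), ?_⟩
  rw [hv]
  push_cast
  congr 1
  · exact Finset.prod_congr rfl fun b _ => Dsc_rat (c (i b)) (h (i b)) (hconj (i b)) _ _ _
  · exact Finset.prod_congr rfl fun b _ => Dsd_rat _ _

end Pool.Agent.KTP
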