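import Pool.Agent.KTP.St
import Pool.Agent.K3P.Dsd
import Pool.Agent.KSE.FftB

/-!
# KTP [One]: the first fundamental theorem for one index
-/

set_option autoImplicit false

namespace Pool.Agent.KTP

open Module Matrix NumberField Pool.Agent.Helper7 Pool.Agent.KS Pool.Agent.Ball Pool.Agent.KSE
  Pool.Agent.K3P
open Pool.Agent.GPC (AbVar TC IsRatT qf df HX HU IsGrU IsBasicU IsGenU)

lemma One_pp {K : Type} [Field K] [NumberField K] {m : ℕ} (c : K →+* K)
    (h : Matrix (Fin m) (Fin m) K) (d : ℕ) : PP h d ⊆ PPD c h d := by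
  rintro ω ⟨l, e, s, hω⟩
  refine ⟨l, 0, (Equiv.sumEmpty _ _).trans e, s, Fin.elim0, fun _ => rfl, fun v => ?_⟩
  rw [hω, Fin.prod_univ_zero, mul_one]
  rfl

theorem thm_One (hOrd : St_Ord) : St_One := by
  intro K _ _ c m d h hconj hherm hnd G hG
  have h1 : G ∈ Submodule.span ℂ (PPD c h d) := by
    by_cases hc : c = RingHom.id K
    · subst hc
      refine hOrd K m d h (fun σ => ?_) ?_ hnd G hG
      · ext y
        rw [hconj]
        rfl
      · ext a b
        exact (hherm a b).symm
    · have hcm : ∀ σ : K →+* ℂ, cj σ ≠ σ := by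
        intro σ h1
        apply hc
        ext y
        have h2 := hconj σ y
        have h3 : σ y = σ (c y) := by
          rw [← h2]
          exact (RingHom.congr_fun h1 y).symm
        exact (σ.injective h3).symm
      exact Submodule.span_mono (One_pp c h d) (fftC hconj hcm hherm hnd G hG)
  have h2 : G ∈ Submodule.span ℂ (Dsd_S c h d) :=
    (Submodule.span_le.2 fun ω hω => Dsd_PPD c h ω hω) h1
  have h3 : ∀ G' ∈ Submodule.span ℂ (Dsd_S c h d), (fun v => G' v) ∈
      Submodule.span ℂ {ω : (Fin d → TC K m) → ℂ | Bas1 c h d ω} := by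
    intro G' hG'
    induction hG' using Submodule.span_induction with
    | mem x hx =>
      apply Submodule.subset_span
      obtain ⟨l, l₁, e, z, z₁, hc, hx⟩ := hx
      refine ⟨l, l₁, e, z, z₁, hc, fun v => ?_⟩
      rw [hx]
      exact Dsd_M_apply h e z z₁ v
    | zero => exact Submodule.zero_mem _
    | add x y _ _ hx hy => exact Submodule.add_mem _ hx hy
    | smul a x _ hx => exact Submodule.smul_mem _ a hx
  exact h3 G h2

end Pool.Agent.KTP
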