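import Pool.Agent.K3P.All
import Pool.Agent.KTP.Prd
import Pool.Agent.KTP.One
import Pool.Agent.KTP.Fin
import Pool.Agent.KTP.Com
import Pool.Agent.KTP.Wrd
import Pool.Agent.KTP.Mlt
import Pool.Agent.KTP.Dsu
import Pool.Agent.KTP.Mxu
import Pool.Agent.KTP.Kil
import Pool.Agent.KTP.Mix
import Pool.Agent.KTP.Inw
import Pool.Agent.KTP.Asm
import Pool.Agent.KTP.Hod
import Pool.Agent.KTP.Hty
import Pool.Agent.KTP.Htf
import Pool.Agent.KTP.Htu
import Pool.Agent.KTP.Hua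

/-!
# KTP: Grothendieck classes on products of K3 surfaces and abelian varieties
-/

set_option autoImplicit false

namespace Pool.Agent.KTP

open Pool.Agent.K3P
open Pool.Agent.GPC (AbVar HU IsGrU IsGenU IsGrUA IsHodgeUA Form)

theorem Mix_ : St_Mix := thm_Mix (thm_Bet thm_Drb thm_Rtb)

theorem Wrd_ : St_Wrd := thm_Wrd thm_Prd (thm_One (thm_Ord Ffd_)) thm_Fin thm_Com

theorem clause1 : St_Hua := thm_Hua (thm_Htf thm_Kil Mix_ thm_Hod thm_Hty) thm_Htu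

theorem clause2 : St_Asm := thm_Asm thm_Kil (thm_Inw Mix_) Wrd_ (thm_Dsu thm_Mlt) thm_Mxu
  (thm_Rev thm_Drb) (thm_Rvd thm_Drb)

theorem main {I : Type} [Fintype I] (A : I → AbVar) (hA : ∀ i, (A i).g ≠ 0) (K : I → Type)
    [∀ i, Field (K i)] [∀ i, NumberField (K i)] (c : ∀ i, K i →+* K i) (m : I → ℕ)
    (S : ∀ i, (A i).KugaSatakeMul (K i) (c i) (m i)) (hK : ∀ i, Adm (S i))
    (hI : Subsingleton I ∨ ∀ i, c i = RingHom.id (K i) ∧ m i ≠ 4)
    (hHom : ∀ i j, i ≠ j → ∀ f, (A i).IsMor (A j) f → ∀ v, f v = 0) :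
    ∀ r n : ℕ, (∀ (k : I → ℕ) (p : ℕ)
      (F : MultilinearMap ℂ (fun _ : Fin n => HU r K m) (Form A k (2 * p))),
      IsGrUA S r n k p F → IsHodgeUA S r n k p F) ∧
    ∀ F : MultilinearMap ℂ (fun _ : Fin n => HU r K m) ℂ,
      IsGrU S r n F ↔ IsGenU c (fun i => (S i).h) r n F := by
  classical
  exact fun r n => ⟨clause1 A S hA hK hI hHom r n, clause2 A S hA hK hI hHom r n⟩

end Pool.Agent.KTP
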