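import Pool.Agent.KTP.StH
import Pool.Agent.K3P.Asm

/-!
# KTP [Hua]: Grothendieck classes on products of K3 surfaces and abelian varieties
-/

set_option autoImplicit false

namespace Pool.Agent.KTP

open Module Matrix NumberField Pool.Agent.Helper7 Pool.Agent.KS Pool.Agent.Ball Pool.Agent.KSE
  Pool.Agent.Helper28.GPC Pool.Agent.KSR Pool.Agent.K3P
open Pool.Agent.GPC (AbVar TC IsRatT HX HU Form IsBetti IsDeRham H1 IsGrUA IsHodgeUA IsFilU)

/-- the value of an alternating form -/
def Hua_e {W : Type} [AddCommGroup W] [Module ℂ W] {q : ℕ} (w : Fin q → W) :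
    (W [⋀^Fin q]→ₗ[ℂ] ℂ) →ₗ[ℂ] ℂ where
  toFun α := α w
  map_add' _ _ := rfl
  map_smul' _ _ := rfl

lemma Hua_ratT {K : Type} [Field K] [NumberField K] {m : ℕ} (x : Fin m → K) :
    IsRatT (emb x) := ⟨x, fun _ _ => rfl⟩

theorem thm_Hua (hHtf : St_Htf) (hHtu : St_Htu) : St_Hua := by
  intro I _ _ A K _ _ c m S hg hAdm hI hHom r n k p F hF
  refine ⟨hF.1, fun a b v w hab hv hw => ?_⟩
  obtain ⟨J, _, d, l, ε, ix, G, hG, hFv⟩ := hHtu (TF K m) (Form A k (2 * p)) r n F v
  have h1 : F v w = Hua_e w (F v) := rfl
  rw [h1, hFv, map_sum]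
  refine Finset.sum_eq_zero fun j _ => ?_
  rw [map_smul, smul_eq_mul]
  by_cases hc : ∃ b', 0 < a (ε j (.inr b'))
  · obtain ⟨b', hb'⟩ := hc
    rw [Finset.prod_eq_zero (Finset.mem_univ b'), zero_mul]
    rw [(hv (ε j (.inr b'))).1 hb']
    rfl
  · push Not at hc
    have h2 : G j (fun t => (v (ε j (.inl t))).2) w = 0 := by
      refine hHtf A S hg hAdm hI hHom (d j) k p (G j) ?_ ?_ (fun t => a (ε j (.inl t))) b _ w ?_
        (fun t i => (hv _).2 i) hw
      · intro y w hw
        rw [hG]
        refine hF.1 _ w (fun s => ?_) hw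
        obtain ⟨t, rfl⟩ := (ε j).surjective s
        rw [Equiv.symm_apply_apply]
        rcases t with t | t
        · exact ⟨fun _ => ⟨0, by rw [Rat.cast_zero]; rfl⟩, fun i => Hua_ratT (y t i)⟩
        · refine ⟨fun a' => ?_, fun i => ?_⟩
          · by_cases ha : a' = ix j t
            · subst ha
              exact ⟨1, by
                show (Pi.single (ix j t) 1 : Fin r → ℂ) (ix j t) = _
                rw [Pi.single_eq_same, Rat.cast_one]⟩
            · exact ⟨0, by
                show (Pi.single (ix j t) 1 : Fin r → ℂ) a' = _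
                rw [Pi.single_eq_of_ne ha, Rat.cast_zero]⟩
          · refine ⟨0, fun σ l => ?_⟩
            rw [Pi.zero_apply, map_zero]
            rfl
      · intro y w hy hw
        rw [hG]
        refine hF.2 _ w (fun s => ?_) hw
        obtain ⟨t, rfl⟩ := (ε j).surjective s
        rw [Equiv.symm_apply_apply]
        rcases t with t | t
        · exact ⟨fun _ => isAlgebraic_zero, fun i => (asm_dr (S i) _).mpr (hy t i)⟩
        · refine ⟨fun a' => ?_, fun i => ?_⟩
          · by_cases ha : a' = ix j t
            · subst ha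
              show IsAlgebraic ℚ ((Pi.single (ix j t) 1 : Fin r → ℂ) (ix j t))
              rw [Pi.single_eq_same]
              exact isAlgebraic_one
            · show IsAlgebraic ℚ ((Pi.single (ix j t) 1 : Fin r → ℂ) a')
              rw [Pi.single_eq_of_ne ha]
              exact isAlgebraic_zero
          · show (S i).IsDRT 0
            rw [asm_dr]
            intro i' j'
            have h3 : opT (lt (A i) (S i)) (0 : TC (K i) (m i)) = 0 := by
              rw [opT]
              exact Finset.sum_eq_zero fun σ _ => map_zero _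
            rw [h3]
            exact isAlgebraic_zero
      · have h3 : ∑ s, a s = ∑ t, a (ε j (.inl t)) + ∑ t, a (ε j (.inr t)) := by
          rw [← Equiv.sum_comp (ε j), Fintype.sum_sum_type]
        have h4 : ∑ t, a (ε j (.inr t)) ≤ 0 := Finset.sum_nonpos fun t _ => hc t
        omega
    have h3 : Hua_e w (G j fun t => (v (ε j (.inl t))).2) = 0 := h2
    rw [h3, mul_zero]

end Pool.Agent.KTP
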