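import Pool.Agent.K3P.Inv

/-!
# KTP [MixA]: forms with two kinds of variables, general lemmas
-/

set_option autoImplicit false

namespace Pool.Agent.KTP

open Pool.Agent.Helper7

section

variable {W' W T : Type} [AddCommGroup W'] [Module ℂ W'] [AddCommGroup W] [Module ℂ W]
  [AddCommGroup T] [Module ℂ T] {n q d : ℕ}

/-- the variables in `T` -/
def MixA_v (e : (Fin 2 × Fin n) ⊕ Fin q ≃ Fin d) (β : W' →ₗ[ℂ] W' →ₗ[ℂ] T) (w : Fin d → W') :
    Fin n → T := fun s => β (w (e (.inl (0, s)))) (w (e (.inl (1, s))))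

/-- the variables in `W` -/
def MixA_w (e : (Fin 2 × Fin n) ⊕ Fin q ≃ Fin d) (π : W' →ₗ[ℂ] W) (w : Fin d → W') :
    Fin q → W := fun s => π (w (e (.inr s)))

lemma MixA_v0 [DecidableEq (Fin d)] [DecidableEq (Fin n)] (e : (Fin 2 × Fin n) ⊕ Fin q ≃ Fin d)
    (β : W' →ₗ[ℂ] W' →ₗ[ℂ] T) (w : Fin d → W') (s₀ : Fin n) (x : W') :
    MixA_v e β (Function.update w (e (.inl (0, s₀))) x) =
      Function.update (MixA_v e β w) s₀ (β x (w (e (.inl (1, s₀))))) := by
  funext s
  unfold MixA_v
  by_cases hs : s = s₀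
  · subst hs
    rw [Function.update_self, Function.update_self, Function.update_of_ne
      (e.injective.ne fun h => one_ne_zero (Prod.ext_iff.mp (Sum.inl_injective h)).1)]
  · rw [Function.update_of_ne hs, Function.update_of_ne
      (e.injective.ne fun h => hs (Prod.ext_iff.mp (Sum.inl_injective h)).2),
      Function.update_of_ne
      (e.injective.ne fun h => hs (Prod.ext_iff.mp (Sum.inl_injective h)).2)]

lemma MixA_v1 [DecidableEq (Fin d)] [DecidableEq (Fin n)] (e : (Fin 2 × Fin n) ⊕ Fin q ≃ Fin d)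
    (β : W' →ₗ[ℂ] W' →ₗ[ℂ] T) (w : Fin d → W') (s₀ : Fin n) (x : W') :
    MixA_v e β (Function.update w (e (.inl (1, s₀))) x) =
      Function.update (MixA_v e β w) s₀ (β (w (e (.inl (0, s₀)))) x) := by
  funext s
  unfold MixA_v
  by_cases hs : s = s₀
  · subst hs
    rw [Function.update_self, Function.update_self, Function.update_of_ne
      (e.injective.ne fun h => zero_ne_one (Prod.ext_iff.mp (Sum.inl_injective h)).1)]
  · rw [Function.update_of_ne hs, Function.update_of_ne
      (e.injective.ne fun h => hs (Prod.ext_iff.mp (Sum.inl_injective h)).2),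
      Function.update_of_ne
      (e.injective.ne fun h => hs (Prod.ext_iff.mp (Sum.inl_injective h)).2)]

lemma MixA_vr [DecidableEq (Fin d)] (e : (Fin 2 × Fin n) ⊕ Fin q ≃ Fin d)
    (β : W' →ₗ[ℂ] W' →ₗ[ℂ] T) (w : Fin d → W') (s₀ : Fin q) (x : W') :
    MixA_v e β (Function.update w (e (.inr s₀)) x) = MixA_v e β w := by
  funext s
  unfold MixA_v
  rw [Function.update_of_ne (e.injective.ne Sum.inl_ne_inr),
    Function.update_of_ne (e.injective.ne Sum.inl_ne_inr)]

lemma MixA_wl [DecidableEq (Fin d)] (e : (Fin 2 × Fin n) ⊕ Fin q ≃ Fin d)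
    (π : W' →ₗ[ℂ] W) (w : Fin d → W') (t : Fin 2 × Fin n) (x : W') :
    MixA_w e π (Function.update w (e (.inl t)) x) = MixA_w e π w := by
  funext s
  unfold MixA_w
  rw [Function.update_of_ne (e.injective.ne Sum.inr_ne_inl)]

lemma MixA_wr [DecidableEq (Fin d)] [DecidableEq (Fin q)] (e : (Fin 2 × Fin n) ⊕ Fin q ≃ Fin d)
    (π : W' →ₗ[ℂ] W) (w : Fin d → W') (s₀ : Fin q) (x : W') :
    MixA_w e π (Function.update w (e (.inr s₀)) x) =
      Function.update (MixA_w e π w) s₀ (π x) := by
  funext s
  unfold MixA_w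
  by_cases hs : s = s₀
  · subst hs
    rw [Function.update_self, Function.update_self]
  · rw [Function.update_of_ne hs, Function.update_of_ne
      (e.injective.ne fun h => hs (Sum.inr_injective h))]

/-- the form in variables of one kind -/
noncomputable def MixA_al (e : (Fin 2 × Fin n) ⊕ Fin q ≃ Fin d) (β : W' →ₗ[ℂ] W' →ₗ[ℂ] T)
    (π : W' →ₗ[ℂ] W) (F : MultilinearMap ℂ (fun _ : Fin n => T)
      (MultilinearMap ℂ (fun _ : Fin q => W) ℂ)) : MultilinearMap ℂ (fun _ : Fin d => W') ℂ where
  toFun w := F (MixA_v e β w) (MixA_w e π w)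
  map_update_add' := by
    intro _ w s x y
    obtain ⟨t, rfl⟩ := e.surjective s
    rcases t with ⟨a, s₀⟩ | s₀
    · fin_cases a
      · have h1 := MixA_v0 e β w s₀
        have h2 := MixA_wl e π w (0, s₀)
        show F (MixA_v e β (Function.update w (e (.inl (0, s₀))) (x + y)))
          (MixA_w e π (Function.update w (e (.inl (0, s₀))) (x + y))) =
          F (MixA_v e β (Function.update w (e (.inl (0, s₀))) x))
          (MixA_w e π (Function.update w (e (.inl (0, s₀))) x)) +
          F (MixA_v e β (Function.update w (e (.inl (0, s₀))) y))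
          (MixA_w e π (Function.update w (e (.inl (0, s₀))) y))
        rw [h1, h1, h1, h2, h2, h2, map_add, LinearMap.add_apply, MultilinearMap.map_update_add]
        rfl
      · have h1 := MixA_v1 e β w s₀
        have h2 := MixA_wl e π w (1, s₀)
        show F (MixA_v e β (Function.update w (e (.inl (1, s₀))) (x + y)))
          (MixA_w e π (Function.update w (e (.inl (1, s₀))) (x + y))) =
          F (MixA_v e β (Function.update w (e (.inl (1, s₀))) x))
          (MixA_w e π (Function.update w (e (.inl (1, s₀))) x)) +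
          F (MixA_v e β (Function.update w (e (.inl (1, s₀))) y))
          (MixA_w e π (Function.update w (e (.inl (1, s₀))) y))
        rw [h1, h1, h1, h2, h2, h2, map_add, MultilinearMap.map_update_add]
        rfl
    · rw [MixA_vr, MixA_vr, MixA_vr, MixA_wr, MixA_wr, MixA_wr, map_add,
        MultilinearMap.map_update_add]
  map_update_smul' := by
    intro _ w s c x
    obtain ⟨t, rfl⟩ := e.surjective s
    rcases t with ⟨a, s₀⟩ | s₀
    · fin_cases a
      · have h1 := MixA_v0 e β w s₀
        have h2 := MixA_wl e π w (0, s₀)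
        show F (MixA_v e β (Function.update w (e (.inl (0, s₀))) (c • x)))
          (MixA_w e π (Function.update w (e (.inl (0, s₀))) (c • x))) =
          c • F (MixA_v e β (Function.update w (e (.inl (0, s₀))) x))
          (MixA_w e π (Function.update w (e (.inl (0, s₀))) x))
        rw [h1, h1, h2, h2, map_smul, LinearMap.smul_apply, MultilinearMap.map_update_smul]
        rfl
      · have h1 := MixA_v1 e β w s₀
        have h2 := MixA_wl e π w (1, s₀)
        show F (MixA_v e β (Function.update w (e (.inl (1, s₀))) (c • x)))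
          (MixA_w e π (Function.update w (e (.inl (1, s₀))) (c • x))) =
          c • F (MixA_v e β (Function.update w (e (.inl (1, s₀))) x))
          (MixA_w e π (Function.update w (e (.inl (1, s₀))) x))
        rw [h1, h1, h2, h2, map_smul, MultilinearMap.map_update_smul]
        rfl
    · rw [MixA_vr, MixA_vr, MixA_wr, MixA_wr, map_smul, MultilinearMap.map_update_smul]

lemma MixA_al_apply (e : (Fin 2 × Fin n) ⊕ Fin q ≃ Fin d) (β : W' →ₗ[ℂ] W' →ₗ[ℂ] T)
    (π : W' →ₗ[ℂ] W) (F : MultilinearMap ℂ (fun _ : Fin n => T)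
      (MultilinearMap ℂ (fun _ : Fin q => W) ℂ)) (w : Fin d → W') :
    MixA_al e β π F w = F (MixA_v e β w) (MixA_w e π w) := rfl

/-- the infinitesimal action on the form in variables of one kind -/
lemma MixA_act (e : (Fin 2 × Fin n) ⊕ Fin q ≃ Fin d) (β : W' →ₗ[ℂ] W' →ₗ[ℂ] T)
    (π : W' →ₗ[ℂ] W) (F : MultilinearMap ℂ (fun _ : Fin n => T)
      (MultilinearMap ℂ (fun _ : Fin q => W) ℂ)) (Z' : Module.End ℂ W') (Z : Module.End ℂ W)
    (L : Module.End ℂ T) (hL : ∀ u v, β (Z' u) v + β u (Z' v) = L (β u v))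
    (hZ : ∀ u, π (Z' u) = Z (π u)) (w : Fin d → W') :
    actForm Z' (MixA_al e β π F) w =
      ∑ s, F (Function.update (MixA_v e β w) s (L (MixA_v e β w s))) (MixA_w e π w) +
      ∑ s, F (MixA_v e β w) (Function.update (MixA_w e π w) s (Z (MixA_w e π w s))) := by
  rw [actForm_apply, ← Equiv.sum_comp e, Fintype.sum_sum_type, Fintype.sum_prod_type,
    Fin.sum_univ_two, ← Finset.sum_add_distrib]
  congr 1
  · refine Finset.sum_congr rfl fun s _ => ?_
    rw [MixA_al_apply, MixA_al_apply, MixA_v0, MixA_v1, MixA_wl, MixA_wl]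
    have h1 : L (MixA_v e β w s) = β (Z' (w (e (.inl (0, s))))) (w (e (.inl (1, s)))) +
        β (w (e (.inl (0, s)))) (Z' (w (e (.inl (1, s))))) := (hL _ _).symm
    rw [h1, MultilinearMap.map_update_add]
    rfl
  · refine Finset.sum_congr rfl fun s _ => ?_
    rw [MixA_al_apply, MixA_vr, MixA_wr, hZ]
    rfl

end

end Pool.Agent.KTP
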