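import Pool.Agent.KTP.TypesH
import Pool.Agent.KT.Alg.Defs

/-!
Grothendieck classes and Hodge classes on products of K3 surfaces and abelian varieties.

`T_i`, `i` in a finite set `I`, are Hodge structures of K3 type with Kuga-Satake varieties `A_i`. The
varieties `X` with transcendental part `T_i` of `H^2(X)(1)` for some `i` (K3 surfaces, cubic fourfolds,
...) and their products are treated at once: the sum of all `T_i` and of the spaces of the other,
algebraic, classes is `HV r K m = ℂ^r ⊕ (⊕_i T_i ⊗ ℂ)`. Let `X_1, ..., X_n` be such varieties, and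
`C = ∏ A_i^{k_i}`. A class on `X_1 × ... × X_n × C` is a multilinear form on `n` copies of `HV r K m` with
values in the alternating forms on `H_1(C, ℂ)`.
-/

set_option autoImplicit false

namespace Pool.Agent.GPC

open NumberField

/-- the cohomology of the disjoint union of the varieties `X_i`: `ℂ^r` has a basis of algebraic
classes (of the varieties, of divisors and of points), and `T_i ⊗ ℂ` is the transcendental part -/
def HV {I : Type} (r : ℕ) (K : I → Type) [∀ i, Field (K i)] (m : I → ℕ) : Type :=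
  (Fin r → ℂ) × ((i : I) → TC (K i) (m i))

section

variable {I : Type} {K : I → Type} [∀ i, Field (K i)] {m : I → ℕ} {r : ℕ}

noncomputable instance HV.group : AddCommGroup (HV r K m) :=
  inferInstanceAs (AddCommGroup ((Fin r → ℂ) × ((i : I) → TC (K i) (m i))))

noncomputable instance HV.module : Module ℂ (HV r K m) :=
  inferInstanceAs (Module ℂ ((Fin r → ℂ) × ((i : I) → TC (K i) (m i))))

end

/-- the condition on the endomorphism field `K` and on the rank `m` -/
def AbVar.KugaSatakeMul.IsAdmissible {A : AbVar} {K : Type} [Field K] [NumberField K] {c : K →+* K}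
    {m : ℕ} (_ : A.KugaSatakeMul K c m) : Prop :=
  (c = RingHom.id K ∧ 3 ≤ m ∧
      (m ≠ 5 ∨ (Module.finrank ℚ K = 1 ∧
        ∃ B : AbVar, B.IsGenericSurface ∧ ∃ f, B.IsMor A f ∧ ∃ v, f v ≠ 0))) ∨
    (c ≠ RingHom.id K ∧ (m = 1 ∨ Even m) ∧
      ((IsGalois ℚ K ∧ ∀ g g' : K ≃ₐ[ℚ] K, g * g' = g' * g) ∨
        Module.finrank ℚ K ≤ 6 ∨ OddSparse K))

section K3Products

variable {I : Type} {K : I → Type} [∀ i, Field (K i)] [∀ i, NumberField (K i)] {m : I → ℕ}
  {A : I → AbVar} {c : ∀ i, K i →+* K i}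

/-- a rational vector of `ℂ^r ⊕ (⊕ T_i ⊗ ℂ)` -/
def HV.IsRat {r : ℕ} (v : HV r K m) : Prop := (∀ a, ∃ q : ℚ, v.1 a = q) ∧ ∀ i, IsRatT (v.2 i)

/-- a de Rham vector of `ℂ^r ⊕ (⊕ T_i ⊗ ℂ)` -/
def HV.IsDR {r : ℕ} (S : ∀ i, (A i).KugaSatakeMul (K i) (c i) (m i)) (v : HV r K m) : Prop :=
  (∀ a, IsAlgebraic ℚ (v.1 a)) ∧ ∀ i, (S i).IsDRT (v.2 i)

/-- `(x, y)` lies in the step `F^a` of the Hodge filtration of `ℂ^r ⊕ (⊕ T_i ⊗ ℂ)`; the classes in `ℂ^r`
are algebraic, of type `(0, 0)`. -/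
def HV.IsFil {r : ℕ} (S : ∀ i, (A i).KugaSatakeMul (K i) (c i) (m i)) (a : ℤ) (v : HV r K m) :
    Prop := (0 < a → v.1 = 0) ∧ ∀ i, (S i).IsFilT a (v.2 i)

/-- the classes on `X_1 × ... × X_n × C`, `C = ∏ A_i^{k_i}` -/
def ClassXC {I : Type} (K : I → Type) [∀ i, Field (K i)] (m : I → ℕ) (A : I → AbVar)
    (r n : ℕ) (k : I → ℕ) (p : ℕ) : Type :=
  MultilinearMap ℂ (fun _ : Fin n => HV r K m) (Form A k (2 * p))

/-- the value of a class -/
def ClassXC.val {r n : ℕ} {k : I → ℕ} {p : ℕ} (F : ClassXC K m A r n k p)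
    (v : Fin n → HV r K m) (w : Fin (2 * p) → H1 A k) : ℂ :=
  MultilinearMap.toFun F v w

/-- the values are `(2πi)^p` times rational numbers on the Betti structures -/
def ClassXC.IsRational {r n : ℕ} {k : I → ℕ} {p : ℕ} (F : ClassXC K m A r n k p) : Prop :=
  ∀ (v : Fin n → HV r K m) (w : Fin (2 * p) → H1 A k),
    (∀ s, (v s).IsRat) → (∀ s, IsBetti A k (w s)) →
      ∃ q : ℚ, F.val v w = (2 * Real.pi * Complex.I) ^ p * q

/-- `F` is a Grothendieck class on `X_1 × ... × X_n × C`, `C = ∏ A_i^{k_i}`: the values are `(2πi)^p`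
times rational numbers on the Betti structures and algebraic on the de Rham structures. -/
def ClassXC.IsGr {r n : ℕ} {k : I → ℕ} {p : ℕ} (S : ∀ i, (A i).KugaSatakeMul (K i) (c i) (m i))
    (F : ClassXC K m A r n k p) : Prop :=
  F.IsRational ∧ ∀ (v : Fin n → HV r K m) (w : Fin (2 * p) → H1 A k),
    (∀ s, (v s).IsDR S) → (∀ s, IsDeRham A k (w s)) → IsAlgebraic ℚ (F.val v w)

/-- `F` is a Hodge class on `X_1 × ... × X_n × C`, `C = ∏ A_i^{k_i}`: the values on the Betti structures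
are `(2πi)^p` times rational numbers, and as a map with values in `ℂ(p)`, which is of type `(-p, -p)`,
`F` respects the Hodge filtrations: it vanishes on `F^{a_1} × ... × F^{a_n} × F^{b_1} × ... × F^{b_{2p}}` if
`∑ a_s + ∑ b_s > -p`. -/
def ClassXC.IsHodge {r n : ℕ} {k : I → ℕ} {p : ℕ}
    (S : ∀ i, (A i).KugaSatakeMul (K i) (c i) (m i)) (F : ClassXC K m A r n k p) : Prop :=
  F.IsRational ∧ ∀ (a : Fin n → ℤ) (b : Fin (2 * p) → ℤ) (v : Fin n → HV r K m)
    (w : Fin (2 * p) → H1 A k), -(p : ℤ) < ∑ s, a s + ∑ s, b s → (∀ s, (v s).IsFil S (a s)) →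
      (∀ s i j, (A i).IsFilAt (b s) (w s i j)) → F.val v w = 0

/-- the classes on `X_1 × ... × X_n` -/
def ClassX {I : Type} (K : I → Type) [∀ i, Field (K i)] (m : I → ℕ) (r n : ℕ) : Type :=
  MultilinearMap ℂ (fun _ : Fin n => HV r K m) ℂ

/-- the value of a class -/
def ClassX.val {r n : ℕ} (F : ClassX K m r n) (v : Fin n → HV r K m) : ℂ :=
  MultilinearMap.toFun F v

/-- `F` is a Grothendieck class on `X_1 × ... × X_n`: the values are rational on the Betti structure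
and algebraic on the de Rham structure. -/
def ClassX.IsGr {r n : ℕ} (S : ∀ i, (A i).KugaSatakeMul (K i) (c i) (m i)) (F : ClassX K m r n) :
    Prop :=
  (∀ v : Fin n → HV r K m, (∀ s, (v s).IsRat) → ∃ q : ℚ, F.val v = q) ∧
  ∀ v : Fin n → HV r K m, (∀ s, (v s).IsDR S) → IsAlgebraic ℚ (F.val v)

/-- `ω` is a product of classes `q_i(z x, y)`, `z ∈ K_i`, from pairs of factors, if `K_i` is totally
real (`c_i = id`) of determinants `Tr (z det (x_1, ..., x_m))`, `z ∈ K_i`, `m = m_i`, from `m_i` factors,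
and of coordinates of `ℂ^r` from single factors; every factor is used exactly once. -/
def IsBasicV (c : ∀ i, K i →+* K i) (h : ∀ i, Matrix (Fin (m i)) (Fin (m i)) (K i)) (r n : ℕ)
    (ω : (Fin n → HV r K m) → ℂ) : Prop :=
  ∃ (l l₁ l₂ : ℕ) (i : Fin l → I) (j : Fin l₁ → I) (a : Fin l₂ → Fin r)
    (z : ∀ b, K (i b)) (z₁ : ∀ b, K (j b))
    (e : ((Fin l × Fin 2) ⊕ (Σ b : Fin l₁, Fin (m (j b)))) ⊕ Fin l₂ ≃ Fin n),
    (∀ b, c (j b) = RingHom.id (K (j b))) ∧ ∀ v, ω v =
      (∏ b, qf (h (i b)) (z b) ((v (e (.inl (.inl (b, 0))))).2 (i b))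
        ((v (e (.inl (.inl (b, 1))))).2 (i b))) *
      (∏ b, df (z₁ b) fun k => (v (e (.inl (.inr ⟨b, k⟩)))).2 (j b)) *
      ∏ b, (v (e (.inr b))).1 (a b)

/-- `F` is a combination with rational coefficients of such products. -/
def ClassX.IsGen {r n : ℕ} (c : ∀ i, K i →+* K i)
    (h : ∀ i, Matrix (Fin (m i)) (Fin (m i)) (K i)) (F : ClassX K m r n) : Prop :=
  ∃ (N : ℕ) (p : Fin N → ℚ) (ω : Fin N → (Fin n → HV r K m) → ℂ),
    (∀ j, IsBasicV c h r n (ω j)) ∧ ∀ v, F.val v = ∑ j, (p j : ℂ) * ω j v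

end K3Products

end Pool.Agent.GPC
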