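import Pool.Agent.KTP.All
import Pool.Agent.KTP.TypesV

/-!
Grothendieck classes on arbitrary products of K3 surfaces, other varieties of K3 type, and abelian
varieties over the algebraic numbers, in all degrees.

`T_i`, `i` in a finite set `I`, are Hodge structures of K3 type over `ℚ̄`, with Kuga-Satake varieties `A_i`;
`K_i` is the endomorphism field of `T_i = K_i^{m_i}`, and `S_i` the Kuga-Satake structure: the Clifford
operators on `H_1(A_i)`. `T_i ⊗ ℂ` has the rational structure `T_i` (`IsRatT`), the de Rham structure
(`IsDRT`) and the Hodge filtration (`IsFilT`) given by the action on `H_1(A_i)`. For a K3 surface (a cubic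
fourfold, ...) over `ℚ̄` these are the structures of the transcendental part of the second (fourth)
cohomology (Deligne).

Let `Y = X_1 × ... × X_n × C`, where the transcendental part of the cohomology of each `X_s` is one of the
`T_i`, and `C = ∏ A_i^{k_i}`. `HV r K m = ℂ^r ⊕ (⊕_i T_i ⊗ ℂ)` contains the cohomology of all `X_s`, the
coordinates of `ℂ^r` being those of algebraic classes. By Künneth and Poincaré duality a class in
`⊕_k H^(2k)(Y, ℂ)(k)` is a multilinear form `F` on `n` copies of `HV r K m` with values in the alternating
forms on `H_1(C, ℂ)` (`ClassXC`; `ClassX` if `C = 0`).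

The hypotheses: all `K_i` are totally real, `m_i ≥ 3`, `m_i ≠ 4`, and `m_i ≠ 5` unless `K_i = ℚ` and `A_i` has
a factor of dimension two with `End = ℤ`, and `Hom(A_i, A_j) = 0` for `i ≠ j`; or `I` has one element, and
`m = 4` is allowed, or `K` is a CM field, `m = 1` or even, and `K` is abelian over `ℚ`, of degree `≤ 6`, or
`OddSparse`.

The theorem: (1) all Grothendieck classes on `Y` are Hodge classes. (2) If `C = 0` they are exactly the
combinations with rational coefficients of products of classes `q_i(z x, y)`, `z ∈ K_i`, from pairs of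
factors, of determinants `Tr (z det (x_1, ..., x_{m_i}))` from `m_i` factors (`K_i` totally real), and of
algebraic classes from the remaining factors. No hypothesis other than the stated ones is made, and
nothing is assumed.
-/

namespace Pool.Agent.KTP.StoreK3TypeProducts

open Pool.Agent.GPC

theorem result {I : Type} [Fintype I] (A : I → AbVar) (hA : ∀ i, (A i).g ≠ 0) (K : I → Type)
    [∀ i, Field (K i)] [∀ i, NumberField (K i)] (c : ∀ i, K i →+* K i) (m : I → ℕ)
    (S : ∀ i, (A i).KugaSatakeMul (K i) (c i) (m i)) (hK : ∀ i, (S i).IsAdmissible)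
    (hI : Subsingleton I ∨ ∀ i, c i = RingHom.id (K i) ∧ m i ≠ 4)
    (hHom : ∀ i j, i ≠ j → ∀ f, (A i).IsMor (A j) f → ∀ v, f v = 0) :
    ∀ r n : ℕ, (∀ (k : I → ℕ) (p : ℕ) (F : ClassXC K m A r n k p), F.IsGr S → F.IsHodge S) ∧
      ∀ F : ClassX K m r n, F.IsGr S ↔ F.IsGen c (fun i => (S i).h) :=
  Pool.Agent.KTP.main A hA K c m S hK hI hHom

end Pool.Agent.KTP.StoreK3TypeProducts
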