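import Pool.Agent.K3P.TypesD

/-!
Grothendieck classes on products of K3 surfaces.

`T_i`, `i` in a finite set `I`, are Hodge structures of K3 type with Kuga-Satake varieties `A_i`. The
varieties `X` with transcendental part `T_i` of `H^2(X)(1)` for some `i` (K3 surfaces, cubic fourfolds,
...) and their products are treated at once: the sum of all `T_i` and of the spaces of the other,
algebraic, classes is `HU r K m = ℂ^r ⊕ (⊕_i T_i ⊗ ℂ)`, the cohomology of the disjoint union of these
varieties, and a class on a product of `n` of them is a multilinear form on `n` copies of `HU`.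
-/

set_option autoImplicit false

namespace Pool.Agent.GPC

open NumberField

section K3Products

variable {I : Type} {K : I → Type} [∀ i, Field (K i)] [∀ i, NumberField (K i)] {m : I → ℕ}

/-- The cohomology of the disjoint union of the varieties `X_i`: `ℂ^r` has a basis of algebraic
classes (of the varieties, of divisors and of points), and `T_i ⊗ ℂ` is the transcendental part. -/
abbrev HU (r : ℕ) (K : I → Type) [∀ i, Field (K i)] (m : I → ℕ) : Type :=
  (Fin r → ℂ) × ((i : I) → TC (K i) (m i))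

/-- `F` is a Grothendieck class: the multilinear form `F` has rational values on the Betti structure
and algebraic values on the de Rham structure. -/
def IsGrU {A : I → AbVar} {c : ∀ i, K i →+* K i} (S : ∀ i, (A i).KugaSatakeMul (K i) (c i) (m i))
    (r n : ℕ) (F : MultilinearMap ℂ (fun _ : Fin n => HU r K m) ℂ) : Prop :=
  (∀ v : Fin n → HU r K m, (∀ s, (∀ a, ∃ p : ℚ, (v s).1 a = p) ∧ ∀ i, IsRatT ((v s).2 i)) →
    ∃ p : ℚ, F v = p) ∧
  ∀ v : Fin n → HU r K m,
    (∀ s, (∀ a, IsAlgebraic ℚ ((v s).1 a)) ∧ ∀ i, (S i).IsDRT ((v s).2 i)) → IsAlgebraic ℚ (F v)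

/-- `ω` is a product of classes `q_i(z x, y)`, `z ∈ K_i`, from pairs of factors, if `K_i` is totally
real (`c_i = id`) of determinants `Tr (z det (x_1, ..., x_m))`, `z ∈ K_i`, `m = m_i`, from `m_i` factors,
and of coordinates of `ℂ^r` from single factors; every factor is used exactly once. -/
def IsBasicU (c : ∀ i, K i →+* K i) (h : ∀ i, Matrix (Fin (m i)) (Fin (m i)) (K i)) (r n : ℕ)
    (ω : (Fin n → HU r K m) → ℂ) : Prop :=
  ∃ (l l₁ l₂ : ℕ) (i : Fin l → I) (j : Fin l₁ → I) (a : Fin l₂ → Fin r)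
    (z : ∀ b, K (i b)) (z₁ : ∀ b, K (j b))
    (e : ((Fin l × Fin 2) ⊕ (Σ b : Fin l₁, Fin (m (j b)))) ⊕ Fin l₂ ≃ Fin n),
    (∀ b, c (j b) = RingHom.id (K (j b))) ∧ ∀ v, ω v =
      (∏ b, qf (h (i b)) (z b) ((v (e (.inl (.inl (b, 0))))).2 (i b))
        ((v (e (.inl (.inl (b, 1))))).2 (i b))) *
      (∏ b, df (z₁ b) fun k => (v (e (.inl (.inr ⟨b, k⟩)))).2 (j b)) *
      ∏ b, (v (e (.inr b))).1 (a b)

/-- `F` is a combination with rational coefficients of such products. -/
def IsGenU (c : ∀ i, K i →+* K i) (h : ∀ i, Matrix (Fin (m i)) (Fin (m i)) (K i)) (r n : ℕ)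
    (F : MultilinearMap ℂ (fun _ : Fin n => HU r K m) ℂ) : Prop :=
  ∃ (N : ℕ) (p : Fin N → ℚ) (ω : Fin N → (Fin n → HU r K m) → ℂ),
    (∀ j, IsBasicU c h r n (ω j)) ∧ ∀ v, F v = ∑ j, (p j : ℂ) * ω j v

end K3Products

end Pool.Agent.GPC
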