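import Pool.Agent.KTP.Types

/-!
Grothendieck classes and Hodge classes on products of K3 surfaces and abelian varieties.

`X_1, ..., X_n` are varieties the transcendental parts of which are some of the `T_i`, and
`C = ∏ A_i^{k_i}`. A class on `X_1 × ... × X_n × C` is a multilinear form on `n` copies of
`HU r K m` with values in the alternating forms on `H_1(C, ℂ)`.
-/

set_option autoImplicit false

namespace Pool.Agent.GPC

open NumberField

/-- `u` lies in the step `F^b` of the Hodge filtration of `H_1(A, ℂ)`: everything for `b < 0`, `F^0` for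
`b = 0`, zero for `b > 0`. -/
def AbVar.IsFilAt (A : AbVar) (b : ℤ) (u : A.H1) : Prop := (0 ≤ b → A.IsFil u) ∧ (0 < b → u = 0)

/-- `y` lies in the step `F^a` of the Hodge filtration of `T ⊗ ℂ`: its operator maps `F^b H_1(A, ℂ)` to
`F^(a+b) H_1(A, ℂ)`, for all `b`. -/
def AbVar.KugaSatakeMul.IsFilT {A : AbVar} {K : Type} [Field K] [NumberField K] {c : K →+* K}
    {m : ℕ} (S : A.KugaSatakeMul K c m) (a : ℤ) (y : TC K m) : Prop :=
  ∀ (b : ℤ) (u : A.H1), A.IsFilAt b u →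
    A.IsFilAt (a + b) (∑ σ : K →+* ℂ, ∑ j, y σ j • S.e σ j u)

section K3Products

variable {I : Type} {K : I → Type} [∀ i, Field (K i)] [∀ i, NumberField (K i)] {m : I → ℕ}
  {A : I → AbVar} {c : ∀ i, K i →+* K i}

/-- `(x, y)` lies in the step `F^a` of the Hodge filtration of `ℂ^r ⊕ (⊕ T_i ⊗ ℂ)`; the classes in `ℂ^r`
are algebraic, of type `(0, 0)`. -/
def IsFilU (S : ∀ i, (A i).KugaSatakeMul (K i) (c i) (m i)) (r : ℕ) (a : ℤ) (v : HU r K m) : Prop :=
  (0 < a → v.1 = 0) ∧ ∀ i, (S i).IsFilT a (v.2 i)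

/-- `F` is a Grothendieck class on `X_1 × ... × X_n × C`, `C = ∏ A_i^{k_i}`: the values are `(2πi)^p`
times rational numbers on the Betti structures and algebraic on the de Rham structures. -/
def IsGrUA (S : ∀ i, (A i).KugaSatakeMul (K i) (c i) (m i)) (r n : ℕ) (k : I → ℕ) (p : ℕ)
    (F : MultilinearMap ℂ (fun _ : Fin n => HU r K m) (Form A k (2 * p))) : Prop :=
  (∀ (v : Fin n → HU r K m) (w : Fin (2 * p) → H1 A k),
    (∀ s, (∀ a, ∃ q : ℚ, (v s).1 a = q) ∧ ∀ i, IsRatT ((v s).2 i)) → (∀ s, IsBetti A k (w s)) →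
      ∃ q : ℚ, F v w = (2 * Real.pi * Complex.I) ^ p * q) ∧
  ∀ (v : Fin n → HU r K m) (w : Fin (2 * p) → H1 A k),
    (∀ s, (∀ a, IsAlgebraic ℚ ((v s).1 a)) ∧ ∀ i, (S i).IsDRT ((v s).2 i)) →
      (∀ s, IsDeRham A k (w s)) → IsAlgebraic ℚ (F v w)

/-- `F` is a Hodge class on `X_1 × ... × X_n × C`, `C = ∏ A_i^{k_i}`: the values on the Betti structures
are `(2πi)^p` times rational numbers, and as a map with values in `ℂ(p)`, which is of type `(-p, -p)`,
`F` respects the Hodge filtrations: it vanishes on `F^{a_1} × ... × F^{a_n} × F^{b_1} × ... × F^{b_{2p}}` if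
`∑ a_s + ∑ b_s > -p`. -/
def IsHodgeUA (S : ∀ i, (A i).KugaSatakeMul (K i) (c i) (m i)) (r n : ℕ) (k : I → ℕ) (p : ℕ)
    (F : MultilinearMap ℂ (fun _ : Fin n => HU r K m) (Form A k (2 * p))) : Prop :=
  (∀ (v : Fin n → HU r K m) (w : Fin (2 * p) → H1 A k),
    (∀ s, (∀ a, ∃ q : ℚ, (v s).1 a = q) ∧ ∀ i, IsRatT ((v s).2 i)) → (∀ s, IsBetti A k (w s)) →
      ∃ q : ℚ, F v w = (2 * Real.pi * Complex.I) ^ p * q) ∧
  ∀ (a : Fin n → ℤ) (b : Fin (2 * p) → ℤ) (v : Fin n → HU r K m) (w : Fin (2 * p) → H1 A k),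
    -(p : ℤ) < ∑ s, a s + ∑ s, b s → (∀ s, IsFilU S r (a s) (v s)) →
      (∀ s i j, (A i).IsFilAt (b s) (w s i j)) → F v w = 0

end K3Products

end Pool.Agent.GPC
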